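import Mathlib

/-!
# Rotation systems with triangular faces
-/

set_option autoImplicit false

namespace Pool.Agent.J4.H47.KM

open Equiv

section faces

variable {D : Type*} [Finite D] (φ : Perm D)

/-- the points `φ ^ r x`, `x` a representative of the cycle, `r = 0, 1, 2` -/
noncomputable def pt (p : Quotient (Perm.SameCycle.setoid φ) × Fin 3) : D := (φ ^ (p.2 : ℕ)) p.1.out

theorem faces_upper (h : ∀ d, φ (φ (φ d)) = d) :
    Nat.card D ≤ 3 * Nat.card (Quotient (Perm.SameCycle.setoid φ)) := by
  have hs : Function.Surjective (pt φ) := by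
    intro d
    have h1 : φ.SameCycle (Quotient.mk (Perm.SameCycle.setoid φ) d).out d :=
      Quotient.mk_out (s := Perm.SameCycle.setoid φ) d
    obtain ⟨n, hn⟩ := h1.exists_nat_pow_eq
    have h3 : ∀ k x, (φ ^ (3 * k)) x = x := by
      intro k
      induction k with
      | zero => intro x; simp
      | succ k ih =>
        intro x
        rw [Nat.mul_succ, pow_add, Perm.mul_apply, ih]
        rw [pow_succ, pow_succ, pow_one]
        exact h x
    refine ⟨(Quotient.mk (Perm.SameCycle.setoid φ) d, ⟨n % 3, Nat.mod_lt _ (by norm_num)⟩), ?_⟩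
    rw [pt]
    simp only
    conv_rhs => rw [← hn, ← Nat.mod_add_div n 3, pow_add, Perm.mul_apply, h3]
  have := Nat.card_le_card_of_surjective _ hs
  rw [Nat.card_prod, Nat.card_eq_fintype_card (α := Fin 3), Fintype.card_fin] at this
  omega

theorem faces_lower (h1 : ∀ d, φ d ≠ d) (h2 : ∀ d, φ (φ d) ≠ d) :
    3 * Nat.card (Quotient (Perm.SameCycle.setoid φ)) ≤ Nat.card D := by
  have hi : Function.Injective (pt φ) := by
    rintro ⟨p, r⟩ ⟨q, t⟩ h
    rw [pt, pt] at h
    simp only at h
    have hpq : p = q := by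
      rw [← Quotient.out_eq p, ← Quotient.out_eq q]
      apply Quotient.sound
      have e1 : φ.SameCycle p.out ((φ ^ (r : ℕ)) p.out) := ⟨r, by simp⟩
      have e2 : φ.SameCycle q.out ((φ ^ (t : ℕ)) q.out) := ⟨t, by simp⟩
      rw [h] at e1
      exact e1.trans e2.symm
    subst hpq
    have key : ∀ a b : Fin 3, a < b → (φ ^ (a : ℕ)) p.out ≠ (φ ^ (b : ℕ)) p.out := by
      intro a b hab he
      fin_cases a <;> fin_cases b <;> simp at hab he
      · exact h1 _ he.symm
      · rw [pow_two, Perm.mul_apply] at he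
        exact h2 _ he.symm
      · rw [pow_two, Perm.mul_apply] at he
        exact h1 _ (φ.injective he.symm)
    rcases lt_trichotomy r t with h5 | h5 | h5
    · exact absurd h (key _ _ h5)
    · rw [h5]
    · exact absurd h.symm (key _ _ h5)
  have := Nat.card_le_card_of_injective _ hi
  rw [Nat.card_prod, Nat.card_eq_fintype_card (α := Fin 3), Fintype.card_fin] at this
  omega

end faces

section graph

variable {V : Type*} (G : SimpleGraph V)

/-- the reversal of darts -/
def revP : Perm G.Dart := Function.Involutive.toPerm SimpleGraph.Dart.symm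
  SimpleGraph.Dart.symm_involutive

theorem revP_apply (d : G.Dart) : revP G d = d.symm := rfl

/-- rotation systems -/
def IsRot (σ : Perm G.Dart) : Prop :=
  (∀ d, (σ d).fst = d.fst) ∧ ∀ d d' : G.Dart, d.fst = d'.fst → σ.SameCycle d d'

variable {G}

theorem lower [Finite V] (hdeg : ∀ v u, G.Adj v u → ∃ w, w ≠ u ∧ G.Adj v w) (σ : Perm G.Dart)
    (hσ : IsRot G σ) :
    3 * Nat.card (Quotient (Perm.SameCycle.setoid (σ * revP G))) ≤ Nat.card G.Dart := by
  have : Finite G.Dart := Finite.of_injective (fun d : G.Dart => d.toProd)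
    (fun a b h => SimpleGraph.Dart.ext _ _ h)
  have hf : ∀ d : G.Dart, ((σ * revP G) d).fst = d.snd := by
    intro d
    rw [Perm.mul_apply, hσ.1, revP_apply]
    rfl
  have hns : ∀ d : G.Dart, σ d ≠ d := by
    intro d h
    obtain ⟨w, hw, hv⟩ := hdeg _ _ d.adj
    have h1 : σ.SameCycle d ⟨(d.fst, w), hv⟩ := hσ.2 _ _ rfl
    have h2 : d = ⟨(d.fst, w), hv⟩ := h1.eq_of_left h
    apply hw
    conv_rhs => rw [h2]
  apply faces_lower
  · intro d h
    have h1 := hf d
    rw [h] at h1
    exact G.ne_of_adj d.adj h1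
  · intro d h
    have h1 := hf ((σ * revP G) d)
    rw [h] at h1
    -- `φ d` is the reversed dart
    have h2 : (σ * revP G) d = d.symm := by
      apply SimpleGraph.Dart.ext
      apply Prod.ext
      · exact hf d
      · exact h1.symm
    rw [Perm.mul_apply, revP_apply] at h2
    exact hns _ h2

/-- A family of rotations at the vertices with triangular faces. -/
structure Tri (G : SimpleGraph V) (R : V → Perm V) : Prop where
  adj : ∀ v u, G.Adj v u → G.Adj v (R v u)
  trans : ∀ v u u', G.Adj v u → G.Adj v u' → (R v).SameCycle u u'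
  tri : ∀ v u, G.Adj v u → R (R v u) v = u

/-- the map on the darts -/
def rotF {R : V → Perm V} (h : Tri G R) (d : G.Dart) : G.Dart :=
  ⟨(d.fst, R d.fst d.snd), h.adj _ _ d.adj⟩

theorem rotF_inj {R : V → Perm V} (h : Tri G R) : Function.Injective (rotF h) := by
  intro d e hde
  have h1 : (rotF h d).fst = (rotF h e).fst := by rw [hde]
  have h2 : (rotF h d).snd = (rotF h e).snd := by rw [hde]
  change d.fst = e.fst at h1
  change R d.fst d.snd = R e.fst e.snd at h2
  apply SimpleGraph.Dart.ext
  apply Prod.ext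
  · exact h1
  · rw [h1] at h2
    exact (R e.fst).injective h2

theorem upper [Finite V] {R : V → Perm V} (h : Tri G R) : ∃ σ : Perm G.Dart, IsRot G σ ∧
    Nat.card G.Dart ≤ 3 * Nat.card (Quotient (Perm.SameCycle.setoid (σ * revP G))) := by
  have : Finite G.Dart := Finite.of_injective (fun d : G.Dart => d.toProd)
    (fun a b h => SimpleGraph.Dart.ext _ _ h)
  let σ : Perm G.Dart := Equiv.ofBijective (rotF h) (Finite.injective_iff_bijective.1 (rotF_inj h))
  have hσ : ∀ d, σ d = rotF h d := fun d => rfl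
  have hpow : ∀ (n : ℕ) (d : G.Dart), ((σ ^ n) d).fst = d.fst ∧
      ((σ ^ n) d).snd = ((R d.fst) ^ n) d.snd := by
    intro n
    induction n with
    | zero => intro d; exact ⟨rfl, rfl⟩
    | succ n ih =>
      intro d
      obtain ⟨h1, h2⟩ := ih d
      rw [pow_succ', Perm.mul_apply, hσ, pow_succ', Perm.mul_apply]
      refine ⟨h1, ?_⟩
      show R ((σ ^ n) d).fst ((σ ^ n) d).snd = _
      rw [h1, h2]
  refine ⟨σ, ⟨fun d => rfl, ?_⟩, ?_⟩
  · intro d d' hd
    obtain ⟨n, hn⟩ := (h.trans d.fst d.snd d'.snd d.adj (by rw [hd]; exact d'.adj)).exists_nat_pow_eq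
    refine ⟨n, ?_⟩
    rw [zpow_natCast]
    obtain ⟨h1, h2⟩ := hpow n d
    apply SimpleGraph.Dart.ext
    apply Prod.ext
    · exact h1.trans hd
    · exact h2.trans hn
  · apply faces_upper
    have hf : ∀ d : G.Dart, ((σ * revP G) d).fst = d.snd ∧
        ((σ * revP G) d).snd = R d.snd d.fst := fun d => ⟨rfl, rfl⟩
    intro d
    obtain ⟨a1, a2⟩ := hf d
    obtain ⟨b1, b2⟩ := hf ((σ * revP G) d)
    obtain ⟨c1, c2⟩ := hf ((σ * revP G) ((σ * revP G) d))
    have t1 : R (R d.snd d.fst) d.snd = d.fst := h.tri _ _ d.adj.symm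
    have e1 : ((σ * revP G) ((σ * revP G) d)).fst = R d.snd d.fst := by rw [b1, a2]
    have e2 : ((σ * revP G) ((σ * revP G) d)).snd = d.fst := by rw [b2, a1, a2, t1]
    apply SimpleGraph.Dart.ext
    apply Prod.ext
    · show _ = d.fst
      rw [← e2]
      exact c1
    · show _ = d.snd
      have t2 : R (R (R d.snd d.fst) d.snd) (R d.snd d.fst) = d.snd :=
        h.tri (R d.snd d.fst) d.snd (h.adj _ _ d.adj.symm).symm
      rw [t1] at t2
      rw [← t2, ← e1, ← e2]
      exact c2

/-- transport along a bijection of the vertices -/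
theorem Tri.map {W : Type*} [Finite W] {H : SimpleGraph W} {R : W → Perm W} (h : Tri H R) (e : W ≃ V)
    (hG : ∀ v u, G.Adj v u ↔ H.Adj (e.symm v) (e.symm u)) :
    Tri G (fun v => (e.symm.trans (R (e.symm v))).trans e) := by
  refine ⟨fun v u hv => ?_, fun v u u' hu hu' => ?_, fun v u hv => ?_⟩
  · rw [hG] at hv ⊢
    simpa using h.adj _ _ hv
  · rw [hG] at hu hu'
    obtain ⟨n, hn⟩ := (h.trans _ _ _ hu hu').exists_nat_pow_eq
    refine ⟨n, ?_⟩
    rw [zpow_natCast]
    have key : ∀ n : ℕ, (((e.symm.trans (R (e.symm v))).trans e) ^ n) u =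
        e (((R (e.symm v)) ^ n) (e.symm u)) := by
      intro n
      induction n with
      | zero => simp
      | succ n ih =>
        rw [pow_succ', Perm.mul_apply, ih, pow_succ', Perm.mul_apply]
        simp
    rw [key, hn, Equiv.apply_symm_apply]
  · rw [hG] at hv
    have := h.tri _ _ hv
    simp only [Equiv.trans_apply, Equiv.symm_apply_apply]
    rw [this, Equiv.apply_symm_apply]

end graph

end Pool.Agent.J4.H47.KM
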