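import Pool.Agent.J4.H47.KM.Half

/-!
# The two permutations of the cross differences
-/

set_option autoImplicit false

namespace Pool.Agent.J4.H47.KM

open Equiv

/-- The properties of the displacements on the integers `0, …, 12 s - 1`. -/
structure IntCross (s μ : ℤ) (D : ℤ → ℤ) (c : ℤ → Prop) : Prop where
  bd : ∀ k, 0 ≤ k → k < 12 * s → 0 ≤ k + D k ∧ k + D k < 12 * s
  inj : ∀ k k', 0 ≤ k → k < 12 * s → 0 ≤ k' → k' < 12 * s → k + D k = k' + D k' → k = k'
  rng : ∀ k, 0 ≤ k → k < 12 * s → D k ≠ 0 ∧ -(6 * s - 1) ≤ D k ∧ D k ≤ 6 * s - 1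
  inv : ∀ k, 0 ≤ k → k < 12 * s → (c (k + D k) ↔ c k)
  orb : ∀ E : ℤ → ℤ → Prop, Equivalence E → (∀ k, 0 ≤ k → k < 12 * s → E k (k + D k)) →
    ∀ x y, 0 ≤ x → x < 12 * s → 0 ≤ y → y < 12 * s → (c x ↔ c y) → E x y
  ex : ∀ e : ℤ, -(6 * s - 1) ≤ e → e ≤ 6 * s - 1 → e ≠ 0 → e ≠ μ → e ≠ -μ →
    ∃ k, 0 ≤ k ∧ k < 12 * s ∧ D k = e
  exin : ∀ e : ℤ, e = μ ∨ e = -μ → ∃ k, 0 ≤ k ∧ k < 12 * s ∧ D k = e ∧ c k
  exout : ∀ e : ℤ, e = μ ∨ e = -μ → ∃ k, 0 ≤ k ∧ k < 12 * s ∧ D k = e ∧ ¬ c k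
  uniq : ∀ k k', 0 ≤ k → k < 12 * s → 0 ≤ k' → k' < 12 * s → D k = D k' →
    ((D k = μ ∨ D k = -μ) → (c k ↔ c k')) → k = k'
  out1 : μ ≠ 1 → ∀ k, 0 ≤ k → k < 12 * s → (D k = 1 ∨ D k = -1) → ¬ c k
  outa : μ = 1 → ∀ k, 0 ≤ k → k < 12 * s → (D k = 6 * s - 1 ∨ D k = -(6 * s - 1)) → ¬ c k

theorem mk_cross {s : ℕ} {μ : ℤ} (hs : 1 ≤ s) (hμ : 1 ≤ μ) {D : ℤ → ℤ} {c : ℤ → Prop}
    (h : IntCross s μ D c) : ∃ ψ Δ C, Cross s μ ψ Δ C := by
  have : NeZero (12 * s) := ⟨by omega⟩
  -- representatives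
  have hv : ∀ d : ZMod (12 * s), 0 ≤ ((d.val : ℕ) : ℤ) ∧ ((d.val : ℕ) : ℤ) < 12 * s := by
    intro d
    have := ZMod.val_lt d
    omega
  have hvc : ∀ d : ZMod (12 * s), (((d.val : ℕ) : ℤ) : ZMod (12 * s)) = d := by
    intro d
    rw [Int.cast_natCast, ZMod.natCast_zmod_val]
  have hcv : ∀ k : ℤ, 0 ≤ k → k < 12 * s → (((k : ZMod (12 * s)).val : ℕ) : ℤ) = k := by
    intro k h1 h2
    obtain ⟨n, rfl⟩ := Int.eq_ofNat_of_zero_le h1
    rw [Int.cast_natCast, ZMod.val_natCast, Nat.mod_eq_of_lt (by omega)]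
  let f : ZMod (12 * s) → ZMod (12 * s) := fun d =>
    ((((d.val : ℕ) : ℤ) + D ((d.val : ℕ) : ℤ) : ℤ) : ZMod (12 * s))
  have hfv : ∀ d, (((f d).val : ℕ) : ℤ) = ((d.val : ℕ) : ℤ) + D ((d.val : ℕ) : ℤ) := by
    intro d
    have h1 := h.bd _ (hv d).1 (hv d).2
    exact hcv _ h1.1 h1.2
  have hf : Function.Injective f := by
    intro d d' hd
    have h1 := hfv d
    rw [hd, hfv d'] at h1
    have h2 := h.inj _ _ (hv d').1 (hv d').2 (hv d).1 (hv d).2 h1
    rw [← hvc d, ← hvc d', h2]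
  let ψ : Perm (ZMod (12 * s)) := Equiv.ofBijective f (Finite.injective_iff_bijective.1 hf)
  have hψ : ∀ d, ψ d = f d := fun d => rfl
  have hψi : ∀ k : ℤ, 0 ≤ k → k < 12 * s → ψ (k : ZMod (12 * s)) = ((k + D k : ℤ) : ZMod (12 * s)) := by
    intro k h1 h2
    rw [hψ]
    show (((((k : ZMod (12 * s)).val : ℕ) : ℤ) + D (((k : ZMod (12 * s)).val : ℕ) : ℤ) : ℤ) :
      ZMod (12 * s)) = _
    rw [hcv k h1 h2]
  have horb : ∀ x y : ZMod (12 * s), (c ((x.val : ℕ) : ℤ) ↔ c ((y.val : ℕ) : ℤ)) →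
      ψ.SameCycle x y := by
    intro x y hxy
    have h1 := h.orb (fun a b => ψ.SameCycle (a : ZMod (12 * s)) (b : ZMod (12 * s)))
      ⟨fun a => Perm.SameCycle.refl _ _, fun h => h.symm, fun h h' => h.trans h'⟩
      (fun k h1 h2 => by
        rw [← hψi k h1 h2]
        exact Perm.sameCycle_apply_right.2 (Perm.SameCycle.refl _ _))
      _ _ (hv x).1 (hv x).2 (hv y).1 (hv y).2 hxy
    simp only [hvc] at h1
    exact h1
  refine ⟨ψ, fun d => D ((d.val : ℕ) : ℤ), {d | c ((d.val : ℕ) : ℤ)}, ?_, ?_, ?_, ?_, ?_, ?_, ?_, ?_,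
    ?_, ?_, ?_, ?_⟩
  · intro d
    rw [hψ]
    show ((((d.val : ℕ) : ℤ) + D ((d.val : ℕ) : ℤ) : ℤ) : ZMod (12 * s)) = _
    rw [Int.cast_add, hvc]
  · intro d
    have h1 := h.rng _ (hv d).1 (hv d).2
    rw [abs_le]
    exact h1.2
  · intro d
    exact (h.rng _ (hv d).1 (hv d).2).1
  · intro d
    show c _ ↔ c _
    rw [hψ, hfv]
    exact h.inv _ (hv d).1 (hv d).2
  · intro x hx y hy
    exact horb x y ⟨fun _ => hy, fun _ => hx⟩
  · intro x hx y hy
    exact horb x y ⟨fun h => absurd h hx, fun h => absurd h hy⟩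
  · intro e h1 h2 h3
    rw [abs_le] at h1
    have h4 := abs_cases e
    obtain ⟨k, h5, h6, h7⟩ := h.ex e h1.1 h1.2 h2 (by omega) (by omega)
    refine ⟨(k : ZMod (12 * s)), ?_⟩
    rw [hcv k h5 h6, h7]
  · intro e h1
    have h4 := abs_cases e
    obtain ⟨k, h5, h6, h7, h8⟩ := h.exin e (by omega)
    refine ⟨(k : ZMod (12 * s)), ?_, ?_⟩
    · show c _
      rw [hcv k h5 h6]
      exact h8
    · rw [hcv k h5 h6, h7]
  · intro e h1
    have h4 := abs_cases e
    obtain ⟨k, h5, h6, h7, h8⟩ := h.exout e (by omega)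
    refine ⟨(k : ZMod (12 * s)), ?_, ?_⟩
    · show ¬ c _
      rw [hcv k h5 h6]
      exact h8
    · rw [hcv k h5 h6, h7]
  · intro d d' h1 h2
    have h3 := h.uniq _ _ (hv d).1 (hv d).2 (hv d').1 (hv d').2 h1 (fun h4 => h2 (by
      rcases h4 with h4 | h4
      · rw [h4, abs_of_pos (by omega)]
      · rw [h4, abs_neg, abs_of_pos (by omega)]))
    rw [← hvc d, ← hvc d', h3]
  · intro h1 d h2
    have h3 := abs_cases (D ((d.val : ℕ) : ℤ))
    exact h.out1 h1 _ (hv d).1 (hv d).2 (by omega)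
  · intro h1 d h2
    have h3 := abs_cases (D ((d.val : ℕ) : ℤ))
    exact h.outa h1 _ (hv d).1 (hv d).2 (by omega)

/-- zigzag paths are connected -/
theorem zig {E : ℤ → ℤ → Prop} (hE : Equivalence E) {a W K : ℤ}
    (h1 : ∀ i, 0 ≤ i → i + 1 < K → E (a + i) (a + W - 1 - i))
    (h2 : ∀ i, 0 ≤ i → i + 1 < K → E (a + W - 1 - i) (a + i + 1)) :
    ∀ i, 0 ≤ i → i < K → E a (a + i) := by
  intro i hi
  obtain ⟨n, rfl⟩ := Int.eq_ofNat_of_zero_le hi
  clear hi
  induction n with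
  | zero =>
    intro _
    simp only [Nat.cast_zero, add_zero]
    exact hE.refl a
  | succ n ih =>
    intro h
    push_cast at h ⊢
    have h3 := ih (by omega)
    have h4 := h1 n (by omega) (by omega)
    have h5 := h2 n (by omega) (by omega)
    have h6 := hE.trans h3 (hE.trans h4 h5)
    rwa [add_assoc] at h6

/-- the displacements for odd `s` -/
def Dodd (s k : ℤ) : ℤ :=
  if k < 2 * s then 6 * s - 1 - 2 * k
  else if k = 2 * s then -(2 * s)
  else if k < 4 * s then 10 * s - 2 * k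
  else if k = 4 * s then 2 * s
  else if k < 6 * s then 6 * s - 2 * k
  else if k < 8 * s then 10 * s - 1 - 2 * k
  else if k < 9 * s then 18 * s - 1 - 2 * k
  else if k = 9 * s then 2 * s
  else if k < 10 * s then 18 * s - 2 * k
  else if k = 10 * s then -(2 * s)
  else if k < 11 * s then 22 * s - 2 * k
  else 22 * s - 1 - 2 * k

theorem Dodd1 {s k : ℤ} (h1 : k < 2 * s) : Dodd s k = 6 * s - 1 - 2 * k := by
  unfold Dodd
  rw [if_pos h1]

theorem Dodd2 {s k : ℤ} (h1 : k = 2 * s) : Dodd s k = -(2 * s) := by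
  unfold Dodd
  rw [if_neg (by omega), if_pos h1]

theorem Dodd3 {s k : ℤ} (h1 : 2 * s < k) (h2 : k < 4 * s) : Dodd s k = 10 * s - 2 * k := by
  unfold Dodd
  rw [if_neg (by omega), if_neg (by omega), if_pos h2]

theorem Dodd4 {s k : ℤ} (hs : 1 ≤ s) (h1 : k = 4 * s) : Dodd s k = 2 * s := by
  unfold Dodd
  rw [if_neg (by omega), if_neg (by omega), if_neg (by omega), if_pos h1]

theorem Dodd5 {s k : ℤ} (hs : 1 ≤ s) (h1 : 4 * s < k) (h2 : k < 6 * s) : Dodd s k = 6 * s - 2 * k := by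
  unfold Dodd
  rw [if_neg (by omega), if_neg (by omega), if_neg (by omega), if_neg (by omega), if_pos h2]

theorem Dodd6 {s k : ℤ} (hs : 1 ≤ s) (h1 : 6 * s ≤ k) (h2 : k < 8 * s) :
    Dodd s k = 10 * s - 1 - 2 * k := by
  unfold Dodd
  rw [if_neg (by omega), if_neg (by omega), if_neg (by omega), if_neg (by omega),
    if_neg (by omega), if_pos h2]

theorem Dodd7 {s k : ℤ} (hs : 1 ≤ s) (h1 : 8 * s ≤ k) (h2 : k < 9 * s) :
    Dodd s k = 18 * s - 1 - 2 * k := by
  unfold Dodd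
  rw [if_neg (by omega), if_neg (by omega), if_neg (by omega), if_neg (by omega),
    if_neg (by omega), if_neg (by omega), if_pos h2]

theorem Dodd8 {s k : ℤ} (hs : 1 ≤ s) (h1 : k = 9 * s) : Dodd s k = 2 * s := by
  unfold Dodd
  rw [if_neg (by omega), if_neg (by omega), if_neg (by omega), if_neg (by omega),
    if_neg (by omega), if_neg (by omega), if_neg (by omega), if_pos h1]

theorem Dodd9 {s k : ℤ} (hs : 1 ≤ s) (h1 : 9 * s < k) (h2 : k < 10 * s) :
    Dodd s k = 18 * s - 2 * k := by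
  unfold Dodd
  rw [if_neg (by omega), if_neg (by omega), if_neg (by omega), if_neg (by omega),
    if_neg (by omega), if_neg (by omega), if_neg (by omega), if_neg (by omega), if_pos h2]

theorem Dodd10 {s k : ℤ} (hs : 1 ≤ s) (h1 : k = 10 * s) : Dodd s k = -(2 * s) := by
  unfold Dodd
  rw [if_neg (by omega), if_neg (by omega), if_neg (by omega), if_neg (by omega),
    if_neg (by omega), if_neg (by omega), if_neg (by omega), if_neg (by omega), if_neg (by omega),
    if_pos h1]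

theorem Dodd11 {s k : ℤ} (hs : 1 ≤ s) (h1 : 10 * s < k) (h2 : k < 11 * s) :
    Dodd s k = 22 * s - 2 * k := by
  unfold Dodd
  rw [if_neg (by omega), if_neg (by omega), if_neg (by omega), if_neg (by omega),
    if_neg (by omega), if_neg (by omega), if_neg (by omega), if_neg (by omega), if_neg (by omega),
    if_neg (by omega), if_pos h2]

theorem Dodd12 {s k : ℤ} (hs : 1 ≤ s) (h1 : 11 * s ≤ k) :
    Dodd s k = 22 * s - 1 - 2 * k := by
  unfold Dodd
  rw [if_neg (by omega), if_neg (by omega), if_neg (by omega), if_neg (by omega),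
    if_neg (by omega), if_neg (by omega), if_neg (by omega), if_neg (by omega), if_neg (by omega),
    if_neg (by omega), if_neg (by omega)]

theorem Dodd_c1 {s k : ℤ} (hs : 1 ≤ s) (h1 : 0 ≤ k) (h2 : k < 8 * s) :
    (k < 2 * s ∧ Dodd s k = 6 * s - 1 - 2 * k) ∨ (k = 2 * s ∧ Dodd s k = -(2 * s)) ∨
    (2 * s < k ∧ k < 4 * s ∧ Dodd s k = 10 * s - 2 * k) ∨ (k = 4 * s ∧ Dodd s k = 2 * s) ∨
    (4 * s < k ∧ k < 6 * s ∧ Dodd s k = 6 * s - 2 * k) ∨
    (6 * s ≤ k ∧ Dodd s k = 10 * s - 1 - 2 * k) := by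
  rcases lt_or_ge k (2 * s) with a | a
  · exact Or.inl ⟨a, Dodd1 a⟩
  rcases eq_or_lt_of_le a with b | b
  · exact Or.inr (Or.inl ⟨b.symm, Dodd2 b.symm⟩)
  rcases lt_or_ge k (4 * s) with c | c
  · exact Or.inr (Or.inr (Or.inl ⟨b, c, Dodd3 b c⟩))
  rcases eq_or_lt_of_le c with d | d
  · exact Or.inr (Or.inr (Or.inr (Or.inl ⟨d.symm, Dodd4 hs d.symm⟩)))
  rcases lt_or_ge k (6 * s) with e | e
  · exact Or.inr (Or.inr (Or.inr (Or.inr (Or.inl ⟨d, e, Dodd5 hs d e⟩))))
  · exact Or.inr (Or.inr (Or.inr (Or.inr (Or.inr ⟨e, Dodd6 hs e h2⟩))))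

theorem Dodd_c2 {s k : ℤ} (hs : 1 ≤ s) (h1 : 8 * s ≤ k) :
    (k < 9 * s ∧ Dodd s k = 18 * s - 1 - 2 * k) ∨ (k = 9 * s ∧ Dodd s k = 2 * s) ∨
    (9 * s < k ∧ k < 10 * s ∧ Dodd s k = 18 * s - 2 * k) ∨ (k = 10 * s ∧ Dodd s k = -(2 * s)) ∨
    (10 * s < k ∧ k < 11 * s ∧ Dodd s k = 22 * s - 2 * k) ∨
    (11 * s ≤ k ∧ Dodd s k = 22 * s - 1 - 2 * k) := by
  rcases lt_or_ge k (9 * s) with a | a
  · exact Or.inl ⟨a, Dodd7 hs h1 a⟩
  rcases eq_or_lt_of_le a with b | b
  · exact Or.inr (Or.inl ⟨b.symm, Dodd8 hs b.symm⟩)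
  rcases lt_or_ge k (10 * s) with c | c
  · exact Or.inr (Or.inr (Or.inl ⟨b, c, Dodd9 hs b c⟩))
  rcases eq_or_lt_of_le c with d | d
  · exact Or.inr (Or.inr (Or.inr (Or.inl ⟨d.symm, Dodd10 hs d.symm⟩)))
  rcases lt_or_ge k (11 * s) with e | e
  · exact Or.inr (Or.inr (Or.inr (Or.inr (Or.inl ⟨d, e, Dodd11 hs d e⟩))))
  · exact Or.inr (Or.inr (Or.inr (Or.inr (Or.inr ⟨e, Dodd12 hs e⟩))))

theorem Dodd_r1 {s k : ℤ} (hs : 1 ≤ s) (h1 : 0 ≤ k) (h2 : k < 8 * s) :
    0 ≤ k + Dodd s k ∧ k + Dodd s k < 8 * s ∧ Dodd s k ≠ 0 ∧ -(6 * s - 1) ≤ Dodd s k ∧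
      Dodd s k ≤ 6 * s - 1 ∧ Dodd s k ≠ 1 ∧ Dodd s k ≠ -1 := by
  have := Dodd_c1 hs h1 h2
  omega

theorem Dodd_r2 {s k : ℤ} (hs : 1 ≤ s) (h1 : 8 * s ≤ k) (h2 : k < 12 * s) :
    8 * s ≤ k + Dodd s k ∧ k + Dodd s k < 12 * s ∧ Dodd s k ≠ 0 ∧ -(6 * s - 1) ≤ Dodd s k ∧
      Dodd s k ≤ 6 * s - 1 := by
  have := Dodd_c2 hs h1
  omega

theorem intcross_odd {s : ℤ} (hs : 1 ≤ s) : IntCross s (2 * s) (Dodd s) (fun k => k < 8 * s) := by
  refine ⟨?_, ?_, ?_, ?_, ?_, ?_, ?_, ?_, ?_, ?_, ?_⟩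
  · intro k h1 h2
    rcases lt_or_ge k (8 * s) with h | h
    · have := Dodd_r1 hs h1 h
      omega
    · have := Dodd_r2 hs h h2
      omega
  · intro k k' h1 h2 h3 h4 h5
    rcases lt_or_ge k (8 * s) with h | h
    · have a1 := Dodd_r1 hs h1 h
      rcases lt_or_ge k' (8 * s) with h' | h'
      · have a2 := Dodd_c1 hs h1 h
        have a3 := Dodd_c1 hs h3 h'
        clear a1
        rcases a2 with a2 | a2 | a2 | a2 | a2 | a2 <;> omega
      · have a2 := Dodd_r2 hs h' h4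
        omega
    · have a1 := Dodd_r2 hs h h2
      rcases lt_or_ge k' (8 * s) with h' | h'
      · have a2 := Dodd_r1 hs h3 h'
        omega
      · have a2 := Dodd_c2 hs h
        have a3 := Dodd_c2 hs h'
        clear a1
        rcases a2 with a2 | a2 | a2 | a2 | a2 | a2 <;> omega
  · intro k h1 h2
    rcases lt_or_ge k (8 * s) with h | h
    · have := Dodd_r1 hs h1 h
      omega
    · have := Dodd_r2 hs h h2
      omega
  · intro k h1 h2
    rcases lt_or_ge k (8 * s) with h | h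
    · have := Dodd_r1 hs h1 h
      omega
    · have := Dodd_r2 hs h h2
      omega
  · intro E hE hstep
    have st : ∀ k j, 0 ≤ k → k < 12 * s → k + Dodd s k = j → E k j := fun k j h1 h2 h3 => by
      rw [← h3]
      exact hstep k h1 h2
    -- the four zigzags
    have z1 : ∀ i, 0 ≤ i → i < 2 * s → E 0 (0 + i) := by
      apply zig hE (W := 6 * s)
      · intro i h1 h2
        exact st _ _ (by omega) (by omega) (by rw [Dodd1 (by omega)]; omega)
      · intro i h1 h2
        exact st _ _ (by omega) (by omega) (by rw [Dodd5 hs (by omega) (by omega)]; omega)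
    have z2 : ∀ i, 0 ≤ i → i < 2 * s → E (2 * s) (2 * s + i) := by
      apply zig hE (W := 6 * s)
      · intro i h1 h2
        apply hE.symm
        exact st _ _ (by omega) (by omega) (by rw [Dodd6 hs (by omega) (by omega)]; omega)
      · intro i h1 h2
        apply hE.symm
        exact st _ _ (by omega) (by omega) (by rw [Dodd3 (by omega) (by omega)]; omega)
    have z3 : ∀ i, 0 ≤ i → i < s → E (8 * s) (8 * s + i) := by
      apply zig hE (W := 2 * s)
      · intro i h1 h2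
        exact st _ _ (by omega) (by omega) (by rw [Dodd7 hs (by omega) (by omega)]; omega)
      · intro i h1 h2
        exact st _ _ (by omega) (by omega) (by rw [Dodd9 hs (by omega) (by omega)]; omega)
    have z4 : ∀ i, 0 ≤ i → i < s → E (10 * s) (10 * s + i) := by
      apply zig hE (W := 2 * s)
      · intro i h1 h2
        apply hE.symm
        exact st _ _ (by omega) (by omega) (by rw [Dodd12 hs (by omega)]; omega)
      · intro i h1 h2
        apply hE.symm
        exact st _ _ (by omega) (by omega) (by rw [Dodd11 hs (by omega) (by omega)]; omega)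
    have l1 : E (2 * s) 0 := st _ _ (by omega) (by omega) (by rw [Dodd2 rfl]; omega)
    have l2 : E (10 * s) (8 * s) := st _ _ (by omega) (by omega) (by rw [Dodd10 hs rfl]; omega)
    have c1 : ∀ x, 0 ≤ x → x < 8 * s → E 0 x := by
      intro x h1 h2
      rcases lt_or_ge x (2 * s) with h3 | h3
      · have := z1 x h1 h3
        rwa [zero_add] at this
      rcases lt_or_ge x (4 * s) with h4 | h4
      · have := z2 (x - 2 * s) (by omega) (by omega)
        rw [show 2 * s + (x - 2 * s) = x by ring] at this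
        exact hE.trans (hE.symm l1) this
      rcases lt_or_ge x (6 * s) with h5 | h5
      · have h6 := z1 (6 * s - 1 - x) (by omega) (by omega)
        refine hE.trans h6 ?_
        exact st _ _ (by omega) (by omega) (by rw [Dodd1 (by omega)]; omega)
      · have h6 := z2 (8 * s - 1 - x) (by omega) (by omega)
        refine hE.trans (hE.symm l1) (hE.trans h6 (hE.symm ?_))
        exact st _ _ (by omega) (by omega) (by rw [Dodd6 hs (by omega) (by omega)]; omega)
    have c2 : ∀ x, 8 * s ≤ x → x < 12 * s → E (8 * s) x := by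
      intro x h1 h2
      rcases lt_or_ge x (9 * s) with h3 | h3
      · have := z3 (x - 8 * s) (by omega) (by omega)
        rwa [show 8 * s + (x - 8 * s) = x by ring] at this
      rcases lt_or_ge x (10 * s) with h4 | h4
      · have h6 := z3 (10 * s - 1 - x) (by omega) (by omega)
        refine hE.trans h6 ?_
        exact st _ _ (by omega) (by omega) (by rw [Dodd7 hs (by omega) (by omega)]; omega)
      rcases lt_or_ge x (11 * s) with h5 | h5
      · have := z4 (x - 10 * s) (by omega) (by omega)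
        rw [show 10 * s + (x - 10 * s) = x by ring] at this
        exact hE.trans (hE.symm l2) this
      · have h6 := z4 (12 * s - 1 - x) (by omega) (by omega)
        refine hE.trans (hE.symm l2) (hE.trans h6 (hE.symm ?_))
        exact st _ _ (by omega) (by omega) (by rw [Dodd12 hs (by omega)]; omega)
    intro x y h1 h2 h3 h4 h5
    by_cases h6 : x < 8 * s
    · exact hE.trans (hE.symm (c1 x h1 h6)) (c1 y h3 (h5.1 h6))
    · have h7 : ¬ y < 8 * s := fun h7 => h6 (h5.2 h7)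
      exact hE.trans (hE.symm (c2 x (by omega) h2)) (c2 y (by omega) h4)
  · intro e h1 h2 h3 h4 h5
    rcases Int.emod_two_eq_zero_or_one e with h6 | h6
    · rcases lt_or_ge 0 e with h7 | h7
      · rcases lt_or_ge e (2 * s) with h8 | h8
        · exact ⟨(22 * s - e) / 2, by omega, by omega, by
            rw [Dodd11 hs (by omega) (by omega)]; omega⟩
        · exact ⟨(10 * s - e) / 2, by omega, by omega, by
            rw [Dodd3 (by omega) (by omega)]; omega⟩
      · rcases lt_or_ge e (-(2 * s)) with h8 | h8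
        · exact ⟨(6 * s - e) / 2, by omega, by omega, by
            rw [Dodd5 hs (by omega) (by omega)]; omega⟩
        · exact ⟨(18 * s - e) / 2, by omega, by omega, by
            rw [Dodd9 hs (by omega) (by omega)]; omega⟩
    · rcases lt_or_ge 0 e with h7 | h7
      · rcases lt_or_ge e (2 * s) with h8 | h8
        · exact ⟨(18 * s - 1 - e) / 2, by omega, by omega, by
            rw [Dodd7 hs (by omega) (by omega)]; omega⟩
        · exact ⟨(6 * s - 1 - e) / 2, by omega, by omega, by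
            rw [Dodd1 (by omega)]; omega⟩
      · rcases lt_or_ge e (-(2 * s)) with h8 | h8
        · exact ⟨(10 * s - 1 - e) / 2, by omega, by omega, by
            rw [Dodd6 hs (by omega) (by omega)]; omega⟩
        · exact ⟨(22 * s - 1 - e) / 2, by omega, by omega, by
            rw [Dodd12 hs (by omega)]; omega⟩
  · rintro e (rfl | rfl)
    · exact ⟨4 * s, by omega, by omega, Dodd4 hs rfl, by omega⟩
    · exact ⟨2 * s, by omega, by omega, Dodd2 rfl, by omega⟩
  · rintro e (rfl | rfl)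
    · exact ⟨9 * s, by omega, by omega, Dodd8 hs rfl, by omega⟩
    · exact ⟨10 * s, by omega, by omega, Dodd10 hs rfl, by omega⟩
  · intro k k' h1 h2 h3 h4 h5 h6
    rcases lt_or_ge k (8 * s) with h | h <;> rcases lt_or_ge k' (8 * s) with h' | h'
    · have a2 := Dodd_c1 hs h1 h
      have a3 := Dodd_c1 hs h3 h'
      clear h6
      rcases a2 with a2 | a2 | a2 | a2 | a2 | a2 <;> omega
    · have a2 := Dodd_c1 hs h1 h
      have a3 := Dodd_c2 hs h'
      rw [← h5] at a3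
      have h7 : ¬ (Dodd s k = 2 * s ∨ Dodd s k = -(2 * s)) := fun h7 => by
        have := h6 h7
        omega
      clear h6
      rcases a2 with a2 | a2 | a2 | a2 | a2 | a2 <;> omega
    · have a2 := Dodd_c2 hs h
      have a3 := Dodd_c1 hs h3 h'
      rw [← h5] at a3
      have h7 : ¬ (Dodd s k = 2 * s ∨ Dodd s k = -(2 * s)) := fun h7 => by
        have := h6 h7
        omega
      clear h6
      rcases a2 with a2 | a2 | a2 | a2 | a2 | a2 <;> omega
    · have a2 := Dodd_c2 hs h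
      have a3 := Dodd_c2 hs h'
      clear h6
      rcases a2 with a2 | a2 | a2 | a2 | a2 | a2 <;> omega
  · intro _ k h1 h2 h3 h4
    have := Dodd_r1 hs h1 h4
    omega
  · intro h
    omega

/-- the displacements for even `s` -/
def Dev (s k : ℤ) : ℤ :=
  if k < 3 * s - 1 then 6 * s - 2 - 2 * k
  else if k = 3 * s - 1 then 6 * s - 1
  else if k < 6 * s - 1 then 6 * s - 1 - 2 * k
  else if k = 6 * s - 1 then -(6 * s - 1)
  else if k < 9 * s - 1 then 18 * s - 3 - 2 * k
  else if k < 12 * s - 2 then 18 * s - 4 - 2 * k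
  else if k = 12 * s - 2 then 1
  else -1

theorem Dev1 {s k : ℤ} (h1 : k < 3 * s - 1) : Dev s k = 6 * s - 2 - 2 * k := by
  unfold Dev
  rw [if_pos h1]

theorem Dev2 {s k : ℤ} (h1 : k = 3 * s - 1) : Dev s k = 6 * s - 1 := by
  unfold Dev
  rw [if_neg (by omega), if_pos h1]

theorem Dev3 {s k : ℤ} (h1 : 3 * s - 1 < k) (h2 : k < 6 * s - 1) : Dev s k = 6 * s - 1 - 2 * k := by
  unfold Dev
  rw [if_neg (by omega), if_neg (by omega), if_pos h2]

theorem Dev4 {s k : ℤ} (hs : 1 ≤ s) (h1 : k = 6 * s - 1) : Dev s k = -(6 * s - 1) := by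
  unfold Dev
  rw [if_neg (by omega), if_neg (by omega), if_neg (by omega), if_pos h1]

theorem Dev5 {s k : ℤ} (hs : 1 ≤ s) (h1 : 6 * s - 1 < k) (h2 : k < 9 * s - 1) :
    Dev s k = 18 * s - 3 - 2 * k := by
  unfold Dev
  rw [if_neg (by omega), if_neg (by omega), if_neg (by omega), if_neg (by omega), if_pos h2]

theorem Dev6 {s k : ℤ} (hs : 1 ≤ s) (h1 : 9 * s - 1 ≤ k) (h2 : k < 12 * s - 2) :
    Dev s k = 18 * s - 4 - 2 * k := by
  unfold Dev
  rw [if_neg (by omega), if_neg (by omega), if_neg (by omega), if_neg (by omega),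
    if_neg (by omega), if_pos h2]

theorem Dev7 {s k : ℤ} (hs : 1 ≤ s) (h1 : k = 12 * s - 2) : Dev s k = 1 := by
  unfold Dev
  rw [if_neg (by omega), if_neg (by omega), if_neg (by omega), if_neg (by omega),
    if_neg (by omega), if_neg (by omega), if_pos h1]

theorem Dev8 {s k : ℤ} (hs : 1 ≤ s) (h1 : k = 12 * s - 1) : Dev s k = -1 := by
  unfold Dev
  rw [if_neg (by omega), if_neg (by omega), if_neg (by omega), if_neg (by omega),
    if_neg (by omega), if_neg (by omega), if_neg (by omega)]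

theorem Dev_c {s k : ℤ} (hs : 1 ≤ s) (h1 : 0 ≤ k) (h2 : k < 12 * s) :
    (k < 3 * s - 1 ∧ Dev s k = 6 * s - 2 - 2 * k) ∨ (k = 3 * s - 1 ∧ Dev s k = 6 * s - 1) ∨
    (3 * s - 1 < k ∧ k < 6 * s - 1 ∧ Dev s k = 6 * s - 1 - 2 * k) ∨
    (k = 6 * s - 1 ∧ Dev s k = -(6 * s - 1)) ∨
    (6 * s - 1 < k ∧ k < 9 * s - 1 ∧ Dev s k = 18 * s - 3 - 2 * k) ∨
    (9 * s - 1 ≤ k ∧ k < 12 * s - 2 ∧ Dev s k = 18 * s - 4 - 2 * k) ∨
    (k = 12 * s - 2 ∧ Dev s k = 1) ∨ (k = 12 * s - 1 ∧ Dev s k = -1) := by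
  rcases lt_or_ge k (3 * s - 1) with a | a
  · exact Or.inl ⟨a, Dev1 a⟩
  rcases eq_or_lt_of_le a with b | b
  · exact Or.inr (Or.inl ⟨b.symm, Dev2 b.symm⟩)
  rcases lt_or_ge k (6 * s - 1) with c | c
  · exact Or.inr (Or.inr (Or.inl ⟨b, c, Dev3 b c⟩))
  rcases eq_or_lt_of_le c with d | d
  · exact Or.inr (Or.inr (Or.inr (Or.inl ⟨d.symm, Dev4 hs d.symm⟩)))
  rcases lt_or_ge k (9 * s - 1) with e | e
  · exact Or.inr (Or.inr (Or.inr (Or.inr (Or.inl ⟨d, e, Dev5 hs d e⟩))))
  rcases lt_or_ge k (12 * s - 2) with f | f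
  · exact Or.inr (Or.inr (Or.inr (Or.inr (Or.inr (Or.inl ⟨e, f, Dev6 hs e f⟩)))))
  rcases eq_or_lt_of_le f with g | g
  · exact Or.inr (Or.inr (Or.inr (Or.inr (Or.inr (Or.inr (Or.inl ⟨g.symm, Dev7 hs g.symm⟩))))))
  · exact Or.inr (Or.inr (Or.inr (Or.inr (Or.inr (Or.inr (Or.inr ⟨by omega, Dev8 hs (by omega)⟩))))))

theorem intcross_even {s : ℤ} (hs : 1 ≤ s) : IntCross s 1 (Dev s) (fun k => 12 * s - 2 ≤ k) := by
  refine ⟨?_, ?_, ?_, ?_, ?_, ?_, ?_, ?_, ?_, ?_, ?_⟩
  · intro k h1 h2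
    have := Dev_c hs h1 h2
    omega
  · intro k k' h1 h2 h3 h4 h5
    have a2 := Dev_c hs h1 h2
    have a3 := Dev_c hs h3 h4
    rcases a2 with a2 | a2 | a2 | a2 | a2 | a2 | a2 | a2 <;> omega
  · intro k h1 h2
    have := Dev_c hs h1 h2
    omega
  · intro k h1 h2
    have := Dev_c hs h1 h2
    omega
  · intro E hE hstep
    have st : ∀ k j, 0 ≤ k → k < 12 * s → k + Dev s k = j → E k j := fun k j h1 h2 h3 => by
      rw [← h3]
      exact hstep k h1 h2
    -- the two zigzags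
    have z1 : ∀ i, 0 ≤ i → i < 3 * s → E 0 (0 + i) := by
      apply zig hE (W := 6 * s - 1)
      · intro i h1 h2
        exact st _ _ (by omega) (by omega) (by rw [Dev1 (by omega)]; omega)
      · intro i h1 h2
        exact st _ _ (by omega) (by omega) (by rw [Dev3 (by omega) (by omega)]; omega)
    have z2 : ∀ i, 0 ≤ i → i < 3 * s → E (6 * s - 1) (6 * s - 1 + i) := by
      apply zig hE (W := 6 * s - 1)
      · intro i h1 h2
        apply hE.symm
        exact st _ _ (by omega) (by omega) (by rw [Dev6 hs (by omega) (by omega)]; omega)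
      · intro i h1 h2
        apply hE.symm
        exact st _ _ (by omega) (by omega) (by rw [Dev5 hs (by omega) (by omega)]; omega)
    have l1 : E (6 * s - 1) 0 := st _ _ (by omega) (by omega) (by rw [Dev4 hs rfl]; omega)
    have c1 : ∀ x, 0 ≤ x → x < 12 * s - 2 → E 0 x := by
      intro x h1 h2
      rcases lt_or_ge x (3 * s) with h3 | h3
      · have := z1 x h1 h3
        rwa [zero_add] at this
      rcases lt_or_ge x (6 * s - 1) with h4 | h4
      · have h6 := z1 (6 * s - 2 - x) (by omega) (by omega)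
        refine hE.trans h6 ?_
        exact st _ _ (by omega) (by omega) (by rw [Dev1 (by omega)]; omega)
      rcases lt_or_ge x (9 * s - 1) with h5 | h5
      · have := z2 (x - (6 * s - 1)) (by omega) (by omega)
        rw [show 6 * s - 1 + (x - (6 * s - 1)) = x by ring] at this
        exact hE.trans (hE.symm l1) this
      · have h6 := z2 (12 * s - 3 - x) (by omega) (by omega)
        refine hE.trans (hE.symm l1) (hE.trans h6 (hE.symm ?_))
        exact st _ _ (by omega) (by omega) (by rw [Dev6 hs (by omega) (by omega)]; omega)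
    have c2 : ∀ x, 12 * s - 2 ≤ x → x < 12 * s → E (12 * s - 2) x := by
      intro x h1 h2
      rcases eq_or_lt_of_le h1 with h3 | h3
      · rw [← h3]
        exact hE.refl _
      · exact st _ _ (by omega) (by omega) (by rw [Dev7 hs rfl]; omega)
    intro x y h1 h2 h3 h4 h5
    by_cases h6 : 12 * s - 2 ≤ x
    · exact hE.trans (hE.symm (c2 x h6 h2)) (c2 y (h5.1 h6) h4)
    · have h7 : ¬ 12 * s - 2 ≤ y := fun h7 => h6 (h5.2 h7)
      exact hE.trans (hE.symm (c1 x h1 (by omega))) (c1 y h3 (by omega))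
  · intro e h1 h2 h3 h4 h5
    by_cases h9 : e = 6 * s - 1
    · exact ⟨3 * s - 1, by omega, by omega, by rw [Dev2 rfl, h9]⟩
    by_cases h10 : e = -(6 * s - 1)
    · exact ⟨6 * s - 1, by omega, by omega, by rw [Dev4 hs rfl, h10]⟩
    rcases Int.emod_two_eq_zero_or_one e with h6 | h6
    · rcases lt_or_ge 0 e with h7 | h7
      · exact ⟨(6 * s - 2 - e) / 2, by omega, by omega, by
            rw [Dev1 (by omega)]; omega⟩
      · exact ⟨(18 * s - 4 - e) / 2, by omega, by omega, by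
            rw [Dev6 hs (by omega) (by omega)]; omega⟩
    · rcases lt_or_ge 0 e with h7 | h7
      · exact ⟨(18 * s - 3 - e) / 2, by omega, by omega, by
            rw [Dev5 hs (by omega) (by omega)]; omega⟩
      · exact ⟨(6 * s - 1 - e) / 2, by omega, by omega, by
            rw [Dev3 (by omega) (by omega)]; omega⟩
  · rintro e (rfl | rfl)
    · exact ⟨12 * s - 2, by omega, by omega, Dev7 hs rfl, by omega⟩
    · exact ⟨12 * s - 1, by omega, by omega, Dev8 hs rfl, by omega⟩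
  · rintro e (rfl | rfl)
    · exact ⟨9 * s - 2, by omega, by omega, by rw [Dev5 hs (by omega) (by omega)]; omega, by omega⟩
    · exact ⟨3 * s, by omega, by omega, by rw [Dev3 (by omega) (by omega)]; omega, by omega⟩
  · intro k k' h1 h2 h3 h4 h5 h6
    have a2 := Dev_c hs h1 h2
    have a3 := Dev_c hs h3 h4
    rcases a2 with a2 | a2 | a2 | a2 | a2 | a2 | a2 | a2 <;> omega
  · intro h
    exact absurd rfl h
  · intro _ k h1 h2 h3 h4
    have := Dev_c hs h1 h2
    omega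

end Pool.Agent.J4.H47.KM
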