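import Pool.Agent.J4.H47.KM.Half2
import Pool.Agent.J4.H47.KM.Phi

/-!
# Triangulations of the graphs `K_{24 s} + 2 K_1`
-/

set_option autoImplicit false

namespace Pool.Agent.J4.H47.KM

open Equiv

section pair

variable {s : ℕ} {μ : ℤ} {ψ : Perm (ZMod (12 * s))} {Δ : ZMod (12 * s) → ℤ}
  {C : Set (ZMod (12 * s))} {ι : Type} {T : ι → Fin 3 → ℤ} {v : Bool → ZMod (12 * s)}

theorem Cross.vort (hp : Par s μ) (h : Cross s μ ψ Δ C) : ∃ v : Bool → ZMod (12 * s),
    (∀ t, v t ∉ C ∧ |Δ (v t)| = 1) ∧ v false ≠ v true := by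
  have hs := hp.s1
  have key : ∀ e : ℤ, |e| = 1 → ∃ d ∉ C, Δ d = e := by
    intro e he
    by_cases hμ : μ = 1
    · exact h.exout e (by rw [he, hμ])
    · obtain ⟨d, hd⟩ := h.ex e (by rw [he]; omega) (by rintro rfl; simp at he)
        (by rw [he]; exact fun h => hμ h.symm)
      exact ⟨d, h.out1 hμ d (by rw [hd, he]), hd⟩
  obtain ⟨d, h1, h2⟩ := key 1 (by simp)
  obtain ⟨d', h3, h4⟩ := key (-1) (by simp)
  refine ⟨fun t => match t with | false => d | true => d', ?_, ?_⟩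
  · rintro (_ | _)
    · exact ⟨h1, by simp only [h2]; simp⟩
    · exact ⟨h3, by simp only [h4]; simp⟩
  · simp only
    intro h5
    rw [h5, h4] at h2
    norm_num at h2

theorem Hyp.vall (H : Hyp s μ ψ Δ C T v) {d : ZMod (12 * s)} (h1 : d ∉ C) (h2 : |Δ d| = 1) :
    ∃ t, d = v t := by
  have a := H.hv false
  have b := H.hv true
  have h3 := abs_cases (Δ d)
  have h4 := abs_cases (Δ (v false))
  have h5 := abs_cases (Δ (v true))
  have h6 : Δ (v false) ≠ Δ (v true) := fun h => H.hvv (H.cross.uniq _ _ h fun _ =>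
    ⟨fun h => absurd h a.1, fun h => absurd h b.1⟩)
  rcases (show Δ d = Δ (v false) ∨ Δ d = Δ (v true) by omega) with h7 | h7
  · exact ⟨false, H.cross.uniq _ _ h7 fun _ => ⟨fun h => absurd h h1, fun h => absurd h a.1⟩⟩
  · exact ⟨true, H.cross.uniq _ _ h7 fun _ => ⟨fun h => absurd h h1, fun h => absurd h b.1⟩⟩

theorem Hyp.k1 (H : Hyp s μ ψ Δ C T v) {d : ZMod (12 * s)} (hd : d ∈ legs s μ T Δ C) :
    ψ d ∉ legs s μ T (fun d => -Δ (ψ.symm d)) C := by
  rintro ⟨h1, h2, h3⟩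
  simp only [Equiv.symm_apply_apply] at h1 h2 h3
  have h4 := (L_both H.par H.trip hd.1 h1).1
  have h5 := abs_cases (Δ d)
  have h6 := H.cross.inv d
  rcases (show Δ d = μ ∨ Δ d = -μ by clear h1; omega) with h7 | h7
  · exact h3 (by omega) (h6.2 (hd.2.1 h7))
  · exact hd.2.2 h7 (h6.1 (h2 (by omega)))

theorem Hyp.k3 (H : Hyp s μ ψ Δ C T v) (d : ZMod (12 * s)) : d ∈ legs s μ T Δ C ∨
    ψ d ∈ legs s μ T (fun d => -Δ (ψ.symm d)) C ∨ ∃ t, d = v t := by
  have hm := H.par.m1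
  have h0 := abs_cases (Δ d)
  have hin := H.cross.inv d
  by_cases h1 : |Δ d| = 1 ∧ d ∉ C
  · exact Or.inr (Or.inr (H.vall h1.2 h1.1))
  have hmem : ψ d ∈ legs s μ T (fun d => -Δ (ψ.symm d)) C ↔ (-Δ d ∈ Lset s μ T ∧
      (-Δ d = μ → ψ d ∈ C) ∧ (-Δ d = -μ → ψ d ∉ C)) := by
    show (-Δ (ψ.symm (ψ d)) ∈ Lset s μ T ∧
      (-Δ (ψ.symm (ψ d)) = μ → ψ d ∈ C) ∧ (-Δ (ψ.symm (ψ d)) = -μ → ψ d ∉ C)) ↔ _
    rw [Equiv.symm_apply_apply]
  by_cases h2 : |Δ d| = μ
  · have hmL : μ ∈ Lset s μ T := ⟨by omega, Or.inr (Or.inl (abs_of_pos (by omega)))⟩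
    by_cases h3 : d ∈ C
    · rcases (show Δ d = μ ∨ Δ d = -μ by omega) with h4 | h4
      · refine Or.inl ⟨by rw [h4]; exact hmL, fun _ => h3, fun h5 => ?_⟩
        omega
      · refine Or.inr (Or.inl (hmem.2 ⟨?_, fun _ => hin.2 h3, fun h5 => ?_⟩))
        · rw [h4, neg_neg]
          exact hmL
        · omega
    · have h5 : μ ≠ 1 := fun h5 => h1 ⟨by omega, h3⟩
      have hmL' : -μ ∈ Lset s μ T :=
        ⟨by omega, Or.inr (Or.inl (by rw [abs_neg]; exact abs_of_pos (by omega)))⟩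
      rcases (show Δ d = μ ∨ Δ d = -μ by clear hmL hmL'; omega) with h4 | h4
      · refine Or.inr (Or.inl (hmem.2 ⟨?_, fun h6 => ?_, fun _ h6 => h3 (hin.1 h6)⟩))
        · rw [h4]
          exact hmL'
        · clear hmL hmL'
          omega
      · refine Or.inl ⟨by rw [h4]; exact hmL', fun h6 => ?_, fun _ => h3⟩
        clear hmL hmL'
        omega
  · by_cases h3 : |Δ d| = 1
    · exact absurd ⟨h3, H.cross.out1 (by omega) d h3⟩ h1
    rcases L_cover H.trip (H.cross.rng d) (H.cross.ne d) with h4 | h4 | h4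
    · refine Or.inl ⟨h4, fun h5 => ?_, fun h5 => ?_⟩ <;> (clear h4; omega)
    · refine Or.inr (Or.inl (hmem.2 ⟨h4, fun h5 => ?_, fun h5 => ?_⟩)) <;> (clear h4; omega)
    · exact absurd h4 h3

theorem Hyp.flip (H : Hyp s μ ψ Δ C T v) :
    Hyp s μ ψ.symm (fun d => -Δ (ψ.symm d)) C T (fun t => ψ (v t)) := by
  refine ⟨H.par, H.cross.flip, H.trip, fun t => ?_, fun h => H.hvv (ψ.injective h)⟩
  refine ⟨fun h => (H.hv t).1 ((H.cross.inv _).1 h), ?_⟩
  simp only [Equiv.symm_apply_apply]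
  rw [abs_neg]
  exact (H.hv t).2

theorem Hyp.tri [Fintype ι] (H : Hyp s μ ψ Δ C T v) : ∃ R, Tri (gr (12 * s)) R := by
  have : NeZero (12 * s) := ⟨by have := H.par.s1; omega⟩
  obtain ⟨P0, hP0⟩ := H.half
  obtain ⟨P1, hP1⟩ := H.flip.half
  let ψ' : Bool → Perm (ZMod (12 * s)) := fun i => match i with
    | false => ψ
    | true => ψ.symm
  let leg' : Bool → Set (ZMod (12 * s)) := fun i => match i with
    | false => legs s μ T Δ C
    | true => legs s μ T (fun d => -Δ (ψ.symm d)) C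
  let v' : Bool → Bool → ZMod (12 * s) := fun i => match i with
    | false => v
    | true => fun t => ψ (v t)
  let P' : Bool → Perm (Sym (12 * s)) := fun i => match i with
    | false => P0
    | true => P1
  have hpair : Pair ψ' leg' v' P' := by
    refine ⟨?_, ?_, ?_, ?_, ?_, ?_, ?_⟩
    · rintro (_ | _) d
      · exact ψ.symm_apply_apply d
      · exact ψ.apply_symm_apply d
    · rintro (_ | _) t
      · rfl
      · exact (ψ.symm_apply_apply _).symm
    · rintro (_ | _) d hd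
      · exact H.k1 hd
      · intro h
        have := H.k1 h
        rw [Equiv.apply_symm_apply] at this
        exact this hd
    · rintro (_ | _) t
      · exact H.vleg t
      · exact H.flip.vleg t
    · rintro (_ | _) d
      · exact H.k3 d
      · rcases H.k3 (ψ.symm d) with h | h | ⟨t, h⟩
        · exact Or.inr (Or.inl h)
        · rw [Equiv.apply_symm_apply] at h
          exact Or.inl h
        · refine Or.inr (Or.inr ⟨t, ?_⟩)
          show d = ψ (v t)
          rw [← h, Equiv.apply_symm_apply]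
    · rintro (_ | _)
      · exact hP0
      · exact hP1
    · intro t z
      show ∃ n : ℕ, z = (n : ZMod (12 * s)) * (ψ (v t) - v t)
      have h1 := (H.hv t).2
      have h2 : ψ (v t) - v t = ((Δ (v t) : ℤ) : ZMod (12 * s)) := by
        rw [H.cross.step]
        ring
      have h3 := abs_cases (Δ (v t))
      rcases (show Δ (v t) = 1 ∨ Δ (v t) = -1 by omega) with h4 | h4
      · refine ⟨z.val, ?_⟩
        rw [h2, h4, ZMod.natCast_zmod_val]
        simp
      · refine ⟨(-z).val, ?_⟩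
        rw [h2, h4, ZMod.natCast_zmod_val]
        simp
  exact ⟨_, tri_of_pair hpair⟩

end pair

/-- The graph `K_{24 s} + 2 K_1` has a rotation system with triangular faces only. -/
theorem exists_tri {s : ℕ} (hs : 1 ≤ s) : ∃ R, Tri (gr (12 * s)) R := by
  rcases Nat.even_or_odd' s with ⟨m, hm | hm⟩
  · obtain ⟨n, T, hT⟩ := trip_even m (by omega)
    have hT' : Trip (s : ℤ) 1 T := by
      rw [hm]
      push_cast
      exact hT
    obtain ⟨ψ, Δ, C, hX⟩ := mk_cross hs le_rfl (intcross_even (s := (s : ℤ)) (by omega))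
    have hp : Par s 1 := ⟨hs, le_rfl, by omega⟩
    obtain ⟨v, h1, h2⟩ := hX.vort hp
    exact Hyp.tri ⟨hp, hX, hT', h1, h2⟩
  · obtain ⟨n, T, hT⟩ := trip_odd m
    have hT' : Trip (s : ℤ) (2 * s) T := by
      rw [hm]
      push_cast
      exact hT
    obtain ⟨ψ, Δ, C, hX⟩ := mk_cross hs (by omega) (intcross_odd (s := (s : ℤ)) (by omega))
    have hp : Par s (2 * s) := ⟨hs, by omega, by omega⟩
    obtain ⟨v, h1, h2⟩ := hX.vort hp
    exact Hyp.tri ⟨hp, hX, hT', h1, h2⟩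

end Pool.Agent.J4.H47.KM
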