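import Mathlib

/-!
# Triples with sum zero from Langford sequences
-/

set_option autoImplicit false

namespace Pool.Agent.J4.H47.KM

/-- the first position of the pair with difference `k + 1` -/
def pos (m q k : ℤ) : ℤ :=
  if k % 2 = 0 then
    (if k ≤ 2 * m - 2 then 5 * m + (2 * m - 2 - k) / 2
      else if k ≤ 4 * m - 4 then (4 * m - 2 - k) / 2
      else if k = 4 * m - 2 then m
      else 4 * m - 1)
  else
    (if k ≤ 2 * m - 3 then m + 1 + (2 * m - 3 - k) / 2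
      else if k = 2 * m - 1 then q
      else if k ≤ 4 * m - 3 then 4 * m + (4 * m - 3 - k) / 2
      else 2 * m)

/-- the two cases of the length -/
def Good (m q n : ℤ) : Prop := 0 ≤ m ∧ ((n = 4 * m - 1 ∧ q = 4 * m - 1 ∧ 1 ≤ m) ∨ (n = 4 * m ∧ q = 6 * m - 1))

theorem pos_bd {m q n : ℤ} (h : Good m q n) {k : ℤ} (h1 : 1 ≤ k) (h2 : k ≤ n) :
    1 ≤ pos m q k ∧ pos m q k + k + 1 ≤ 2 * n := by
  rcases h with ⟨h0, ⟨rfl, rfl, h3⟩ | ⟨rfl, rfl⟩⟩ <;> unfold pos <;> split_ifs <;> omega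

theorem pos_inj {m q n : ℤ} (h : Good m q n) {k k' : ℤ} (h1 : 1 ≤ k) (h2 : k ≤ n) (h3 : 1 ≤ k')
    (h4 : k' ≤ n) (h5 : pos m q k = pos m q k') : k = k' := by
  rcases h with ⟨h0, ⟨rfl, rfl, h3⟩ | ⟨rfl, rfl⟩⟩ <;> unfold pos at h5 <;> split_ifs at h5 <;> omega

theorem pos_inj' {m q n : ℤ} (h : Good m q n) {k k' : ℤ} (h1 : 1 ≤ k) (h2 : k ≤ n) (h3 : 1 ≤ k')
    (h4 : k' ≤ n) (h5 : pos m q k + k = pos m q k' + k') : k = k' := by
  rcases h with ⟨h0, ⟨rfl, rfl, h3⟩ | ⟨rfl, rfl⟩⟩ <;> unfold pos at h5 <;> split_ifs at h5 <;> omega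

theorem pos_ne {m q n : ℤ} (h : Good m q n) {k k' : ℤ} (h1 : 1 ≤ k) (h2 : k ≤ n) (h3 : 1 ≤ k')
    (h4 : k' ≤ n) (h5 : pos m q k = pos m q k' + k' + 1) : False := by
  rcases h with ⟨h0, ⟨rfl, rfl, h3⟩ | ⟨rfl, rfl⟩⟩ <;> unfold pos at h5 <;> split_ifs at h5 <;> omega

theorem pos_cov {m q n : ℤ} (h : Good m q n) {p : ℤ} (h1 : 1 ≤ p) (h2 : p ≤ 2 * n) :
    ∃ k, 1 ≤ k ∧ k ≤ n ∧ (pos m q k = p ∨ pos m q k + k + 1 = p) := by
  have key : ∀ k : ℤ, 1 ≤ k → k ≤ n → (pos m q k = p ∨ pos m q k + k + 1 = p) →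
    ∃ k, 1 ≤ k ∧ k ≤ n ∧ (pos m q k = p ∨ pos m q k + k + 1 = p) := fun k a b c => ⟨k, a, b, c⟩
  rcases h with ⟨h0, h⟩
  rcases lt_or_ge p m with c1 | c1
  · refine key (4 * m - 2 - 2 * p) ?_ ?_ (Or.inl ?_) <;> (try unfold pos) <;> (try split_ifs) <;> omega
  rcases eq_or_lt_of_le c1 with c2 | c2
  · refine key (4 * m - 2) ?_ ?_ (Or.inl ?_) <;> (try unfold pos) <;> (try split_ifs) <;> omega
  rcases lt_or_ge p (2 * m) with c3 | c3
  · refine key (2 * m - 3 - 2 * (p - m - 1)) ?_ ?_ (Or.inl ?_) <;> (try unfold pos) <;> (try split_ifs) <;> omega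
  rcases eq_or_lt_of_le c3 with c4 | c4
  · refine key (4 * m - 1) ?_ ?_ (Or.inl ?_) <;> (try unfold pos) <;> (try split_ifs) <;> omega
  rcases lt_or_ge p (3 * m) with c5 | c5
  · refine key (2 * (p - 2 * m) - 1) ?_ ?_ (Or.inr ?_) <;> (try unfold pos) <;> (try split_ifs) <;> omega
  rcases lt_or_ge p (4 * m - 1) with c6 | c6
  · refine key (2 * (p - 2 * m)) ?_ ?_ (Or.inr ?_) <;> (try unfold pos) <;> (try split_ifs) <;> omega
  rcases eq_or_lt_of_le c6 with c7 | c7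
  · rcases h with ⟨rfl, rfl, h3⟩ | ⟨rfl, rfl⟩
    · refine key (2 * m - 1) ?_ ?_ (Or.inl ?_) <;> (try unfold pos) <;> (try split_ifs) <;> omega
    · refine key (4 * m) ?_ ?_ (Or.inl ?_) <;> (try unfold pos) <;> (try split_ifs) <;> omega
  rcases lt_or_ge p (5 * m - 1) with c8 | c8
  · refine key (4 * m - 3 - 2 * (p - 4 * m)) ?_ ?_ (Or.inl ?_) <;> (try unfold pos) <;> (try split_ifs) <;> omega
  rcases eq_or_lt_of_le c8 with c9 | c9
  · refine key (4 * m - 2) ?_ ?_ (Or.inr ?_) <;> (try unfold pos) <;> (try split_ifs) <;> omega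
  rcases lt_or_ge p (6 * m - 1) with d1 | d1
  · refine key (2 * m - 2 - 2 * (p - 5 * m)) ?_ ?_ (Or.inl ?_) <;> (try unfold pos) <;> (try split_ifs) <;> omega
  rcases eq_or_lt_of_le d1 with d2 | d2
  · rcases h with ⟨rfl, rfl, h3⟩ | ⟨rfl, rfl⟩
    · refine key (2 * m - 1) ?_ ?_ (Or.inr ?_) <;> (try unfold pos) <;> (try split_ifs) <;> omega
    · refine key (2 * m - 1) ?_ ?_ (Or.inl ?_) <;> (try unfold pos) <;> (try split_ifs) <;> omega
  rcases eq_or_lt_of_le (show 6 * m ≤ p by omega) with d3 | d3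
  · refine key (4 * m - 1) ?_ ?_ (Or.inr ?_) <;> (try unfold pos) <;> (try split_ifs) <;> omega
  rcases lt_or_ge p (7 * m) with d4 | d4
  · refine key (2 * (p - 6 * m)) ?_ ?_ (Or.inr ?_) <;> (try unfold pos) <;> (try split_ifs) <;> omega
  rcases lt_or_ge p (8 * m - 1) with d5 | d5
  · refine key (2 * (p - 6 * m) + 1) ?_ ?_ (Or.inr ?_) <;> (try unfold pos) <;> (try split_ifs) <;> omega
  rcases eq_or_lt_of_le d5 with d6 | d6
  · refine key (2 * m - 1) ?_ ?_ (Or.inr ?_) <;> (try unfold pos) <;> (try split_ifs) <;> omega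
  · refine key (4 * m) ?_ ?_ (Or.inr ?_) <;> (try unfold pos) <;> (try split_ifs) <;> omega

/-- Triples with sum zero whose absolute values are the numbers `1, …, 6 s - 2` except `μ`. -/
structure Trip (s μ : ℤ) {ι : Type} (T : ι → Fin 3 → ℤ) : Prop where
  sum : ∀ i, T i 0 + T i 1 + T i 2 = 0
  inj : ∀ i j r r', |T i r| = |T j r'| → i = j ∧ r = r'
  rng : ∀ i r, 1 ≤ |T i r| ∧ |T i r| ≤ 6 * s - 2
  neμ : ∀ i r, |T i r| ≠ μ
  ne1 : ∀ i r, T i r ≠ 1
  cov : ∀ e : ℤ, 1 ≤ e → e ≤ 6 * s - 2 → e ≠ μ → ∃ i r, |T i r| = e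

/-- the triple with the number `k + 1` -/
def tr (s m q k : ℤ) : Fin 3 → ℤ := ![k + 1, pos m q k + 2 * s, -(pos m q k + 2 * s + k + 1)]

theorem tr_inj {s m q n : ℤ} (h : Good m q n) (hn : n + 1 ≤ 2 * s) {k k' : ℤ} (h1 : 1 ≤ k) (h2 : k ≤ n)
    (h3 : 1 ≤ k') (h4 : k' ≤ n) {r r' : Fin 3} (h5 : |tr s m q k r| = |tr s m q k' r'|) :
    k = k' ∧ r = r' := by
  have b1 := pos_bd h h1 h2
  have b2 := pos_bd h h3 h4
  have i1 := pos_inj h h1 h2 h3 h4
  have i2 := pos_inj' h h1 h2 h3 h4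
  have i3 := pos_ne h h1 h2 h3 h4
  have i4 := pos_ne h h3 h4 h1 h2
  have a0 : ∀ k, 1 ≤ k → |tr s m q k 0| = k + 1 := fun k hk => by
    rw [show tr s m q k 0 = k + 1 from rfl, abs_of_pos (by omega)]
  have a1 : ∀ k, 1 ≤ pos m q k → |tr s m q k 1| = pos m q k + 2 * s := fun k hk => by
    rw [show tr s m q k 1 = pos m q k + 2 * s from rfl, abs_of_pos (by omega)]
  have a2 : ∀ k, 1 ≤ k → 1 ≤ pos m q k → |tr s m q k 2| = pos m q k + 2 * s + k + 1 := fun k hk hk' => by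
    rw [show tr s m q k 2 = -(pos m q k + 2 * s + k + 1) from rfl, abs_neg, abs_of_pos (by omega)]
  fin_cases r <;> fin_cases r' <;> simp only [Fin.zero_eta, Fin.mk_one, Fin.reduceFinMk] at h5 ⊢ <;>
    simp only [a0 k h1, a0 k' h3, a1 k b1.1, a1 k' b2.1, a2 k h1 b1.1, a2 k' h3 b2.1] at h5
  · exact ⟨by omega, trivial⟩
  · exfalso; omega
  · exfalso; omega
  · exfalso; omega
  · exact ⟨i1 (by omega), trivial⟩
  · exfalso; exact i3 (by omega)
  · exfalso; omega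
  · exfalso; exact i4 (by omega)
  · exact ⟨i2 (by omega), trivial⟩

theorem tr_rng {s m q n : ℤ} (h : Good m q n) (hn : n + 1 ≤ 2 * s) {k : ℤ} (h1 : 1 ≤ k) (h2 : k ≤ n)
    (r : Fin 3) : (2 ≤ |tr s m q k r| ∧ |tr s m q k r| ≤ n + 1) ∨
      (2 * s + 1 ≤ |tr s m q k r| ∧ |tr s m q k r| ≤ 2 * s + 2 * n) := by
  have b1 := pos_bd h h1 h2
  fin_cases r
  · left
    rw [show tr s m q k ⟨0, by norm_num⟩ = k + 1 from rfl, abs_of_pos (by omega)]
    omega
  · right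
    rw [show tr s m q k ⟨1, by norm_num⟩ = pos m q k + 2 * s from rfl, abs_of_pos (by omega)]
    omega
  · right
    rw [show tr s m q k ⟨2, by norm_num⟩ = -(pos m q k + 2 * s + k + 1) from rfl, abs_neg,
      abs_of_pos (by omega)]
    omega

theorem tr_cov {s m q n : ℤ} (h : Good m q n) (hn : n + 1 ≤ 2 * s) {e : ℤ}
    (he : (2 ≤ e ∧ e ≤ n + 1) ∨ (2 * s + 1 ≤ e ∧ e ≤ 2 * s + 2 * n)) :
    ∃ k r, 1 ≤ k ∧ k ≤ n ∧ |tr s m q k r| = e := by
  rcases he with ⟨h1, h2⟩ | ⟨h1, h2⟩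
  · refine ⟨e - 1, 0, by omega, by omega, ?_⟩
    rw [show tr s m q (e - 1) 0 = e - 1 + 1 from rfl, abs_of_pos (by omega)]
    omega
  · obtain ⟨k, h3, h4, h5⟩ := pos_cov h (p := e - 2 * s) (by omega) (by omega)
    have b1 := pos_bd h h3 h4
    rcases h5 with h5 | h5
    · refine ⟨k, 1, h3, h4, ?_⟩
      rw [show tr s m q k 1 = pos m q k + 2 * s from rfl, abs_of_pos (by omega)]
      omega
    · refine ⟨k, 2, h3, h4, ?_⟩
      rw [show tr s m q k 2 = -(pos m q k + 2 * s + k + 1) from rfl, abs_neg, abs_of_pos (by omega)]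
      omega

theorem tr_sum (s m q k : ℤ) : tr s m q k 0 + tr s m q k 1 + tr s m q k 2 = 0 := by
  simp [tr]
  ring

theorem tr_ne1 {s m q n : ℤ} (h : Good m q n) (hn : n + 1 ≤ 2 * s) {k : ℤ} (h1 : 1 ≤ k) (h2 : k ≤ n)
    (r : Fin 3) : tr s m q k r ≠ 1 := by
  intro h3
  have := tr_rng h hn h1 h2 r
  rw [h3, abs_one] at this
  omega

/-- the triples for even `s` -/
theorem trip_even (m : ℕ) (hm : 1 ≤ m) : ∃ (n : ℕ) (T : Fin n → Fin 3 → ℤ),
    Trip (2 * m) 1 T := by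
  have hg : Good (m : ℤ) (4 * m - 1) (4 * m - 1) := ⟨by omega, Or.inl ⟨rfl, rfl, by omega⟩⟩
  have hn : (4 * (m : ℤ) - 1) + 1 ≤ 2 * (2 * m) := by omega
  refine ⟨4 * m - 1, fun i => tr (2 * m) m (4 * m - 1) ((i : ℕ) + 1), ?_, ?_, ?_, ?_, ?_, ?_⟩
  · intro i
    exact tr_sum _ _ _ _
  · intro i j r r' h
    have := tr_inj hg hn (by omega) (by omega) (by omega) (by omega) h
    exact ⟨Fin.ext (by omega), this.2⟩
  · intro i r
    have := tr_rng hg hn (k := (i : ℕ) + 1) (by omega) (by omega) r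
    omega
  · intro i r
    have := tr_rng hg hn (k := (i : ℕ) + 1) (by omega) (by omega) r
    omega
  · intro i r
    exact tr_ne1 hg hn (by omega) (by omega) r
  · intro e h1 h2 h3
    obtain ⟨k, r, h4, h5, h6⟩ := tr_cov hg hn (e := e) (by omega)
    refine ⟨⟨(k - 1).toNat, by omega⟩, r, ?_⟩
    have h7 : ((⟨(k - 1).toNat, by omega⟩ : Fin (4 * m - 1)) : ℕ) = (k - 1).toNat := rfl
    simp only
    rw [show (((k - 1).toNat : ℕ) : ℤ) + 1 = k by omega]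
    exact h6

/-- the triples for odd `s` -/
theorem trip_odd (m : ℕ) : ∃ (n : ℕ) (T : Option (Fin n) → Fin 3 → ℤ),
    Trip (2 * m + 1) (2 * (2 * m + 1)) T := by
  have hg : Good (m : ℤ) (6 * m - 1) (4 * m) := ⟨by omega, Or.inr ⟨rfl, rfl⟩⟩
  have hn : (4 * (m : ℤ)) + 1 ≤ 2 * (2 * m + 1) := by omega
  have ho : ∀ r : Fin 3, |(![-1, 6 * (2 * (m : ℤ) + 1) - 2, -(6 * (2 * m + 1) - 3)] : Fin 3 → ℤ) r| =
      (![1, 6 * (2 * (m : ℤ) + 1) - 2, 6 * (2 * m + 1) - 3] : Fin 3 → ℤ) r := by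
    intro r
    fin_cases r
    · simp
    · show |6 * (2 * (m : ℤ) + 1) - 2| = 6 * (2 * (m : ℤ) + 1) - 2
      rw [abs_of_pos (by omega)]
    · show |-(6 * (2 * (m : ℤ) + 1) - 3)| = 6 * (2 * (m : ℤ) + 1) - 3
      rw [abs_neg, abs_of_pos (by omega)]
  have hv : ∀ r : Fin 3, (![1, 6 * (2 * (m : ℤ) + 1) - 2, 6 * (2 * m + 1) - 3] : Fin 3 → ℤ) r = 1 ∨
      (![1, 6 * (2 * (m : ℤ) + 1) - 2, 6 * (2 * m + 1) - 3] : Fin 3 → ℤ) r = 12 * m + 4 ∨
      (![1, 6 * (2 * (m : ℤ) + 1) - 2, 6 * (2 * m + 1) - 3] : Fin 3 → ℤ) r = 12 * m + 3 := by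
    intro r
    fin_cases r
    · left; rfl
    · right; left
      show 6 * (2 * (m : ℤ) + 1) - 2 = _
      ring
    · right; right
      show 6 * (2 * (m : ℤ) + 1) - 3 = _
      ring
  refine ⟨4 * m, fun i => match i with
    | none => ![-1, 6 * (2 * (m : ℤ) + 1) - 2, -(6 * (2 * m + 1) - 3)]
    | some i => tr (2 * m + 1) m (6 * m - 1) ((i : ℕ) + 1), ?_, ?_, ?_, ?_, ?_, ?_⟩
  · intro i
    rcases i with _ | i
    · show -1 + (6 * (2 * (m : ℤ) + 1) - 2) + -(6 * (2 * m + 1) - 3) = 0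
      ring
    · exact tr_sum _ _ _ _
  · rintro (_ | i) (_ | j) r r' h
    · simp only at h
      rw [ho, ho] at h
      refine ⟨rfl, ?_⟩
      fin_cases r <;> fin_cases r' <;> simp at h ⊢ <;> omega
    · exfalso
      simp only at h
      rw [ho] at h
      have := tr_rng hg hn (k := (j : ℕ) + 1) (by omega) (by omega) r'
      have := hv r
      omega
    · exfalso
      simp only at h
      rw [ho] at h
      have := tr_rng hg hn (k := (i : ℕ) + 1) (by omega) (by omega) r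
      have := hv r'
      omega
    · have := tr_inj hg hn (by omega) (by omega) (by omega) (by omega) h
      exact ⟨congrArg some (Fin.ext (by omega)), this.2⟩
  · rintro (_ | i) r
    · simp only
      rw [ho]
      have := hv r
      omega
    · have := tr_rng hg hn (k := (i : ℕ) + 1) (by omega) (by omega) r
      simp only
      omega
  · rintro (_ | i) r
    · simp only
      rw [ho]
      have := hv r
      omega
    · have := tr_rng hg hn (k := (i : ℕ) + 1) (by omega) (by omega) r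
      simp only
      omega
  · rintro (_ | i) r
    · fin_cases r <;> simp <;> omega
    · exact tr_ne1 hg hn (by omega) (by omega) r
  · intro e h1 h2 h3
    by_cases h4 : (2 ≤ e ∧ e ≤ 4 * m + 1) ∨ (2 * (2 * m + 1) + 1 ≤ e ∧ e ≤ 2 * (2 * m + 1) + 2 * (4 * m))
    · obtain ⟨k, r, h4, h5, h6⟩ := tr_cov hg hn (e := e) (by omega)
      refine ⟨some ⟨(k - 1).toNat, by omega⟩, r, ?_⟩
      simp only
      rw [show (((k - 1).toNat : ℕ) : ℤ) + 1 = k by omega]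
      exact h6
    · have h5 : e = 1 ∨ e = 12 * m + 4 ∨ e = 12 * m + 3 := by omega
      rcases h5 with h5 | h5 | h5
      · refine ⟨none, 0, ?_⟩
        simp only
        rw [ho, h5]
        rfl
      · refine ⟨none, 1, ?_⟩
        simp only
        rw [ho, h5]
        show 6 * (2 * (m : ℤ) + 1) - 2 = _
        ring
      · refine ⟨none, 2, ?_⟩
        simp only
        rw [ho, h5]
        show 6 * (2 * (m : ℤ) + 1) - 3 = _
        ring

end Pool.Agent.J4.H47.KM
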