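import Pool.Agent.J4.H47.KM.Euler

/-!
# Current graphs of index two for `K_{2N} + 2 K_1`

The vertices of the graph are `(i, a)`, `i` a Boolean value and `a` in `ℤ/N`, and two further vertices. The
rotation at `(i, 0)` is given by a permutation of the symbols `w v` (edges inside a class), `c d` (edges
between the classes) and `x t` (edges to the further vertices).
-/

set_option autoImplicit false

namespace Pool.Agent.J4.H47.KM

open Equiv

/-- the symbols -/
inductive Sym (N : ℕ) : Type
  | w (v : ZMod N) : Sym N
  | c (d : ZMod N) : Sym N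
  | x (t : Bool) : Sym N

/-- the vertices -/
abbrev Vx (N : ℕ) : Type := (Bool × ZMod N) ⊕ Bool

variable {N : ℕ}

/-- A face which passes the cross edges in the order `ψ`, with detours at the places in `leg`. -/
structure HalfSys (ψ : Perm (ZMod N)) (leg : Set (ZMod N)) (v : Bool → ZMod N) (P : Perm (Sym N)) :
    Prop where
  zero : P (.w 0) = .w 0
  trans : ∀ a b, a ≠ .w 0 → b ≠ .w 0 → P.SameCycle a b
  cleg : ∀ d ∈ leg, P (.c d) = .w (d - ψ d)
  cstr : ∀ d, d ∉ leg → (∀ t, d ≠ v t) → P (.c d) = .c (ψ d)
  cv : ∀ t, P (.c (v t)) = .x t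
  xv : ∀ t, P (.x t) = .c (ψ (v t))
  exit : ∀ d ∈ leg, P (.w (ψ d - d)) = .c (ψ d)
  pure : ∀ u, u ≠ 0 → (∀ d ∈ leg, ψ d - d ≠ u) → ∃ u', P (.w u) = .w u' ∧ P (.w (-u')) = .w (u - u')

/-- Two faces which fit together. -/
structure Pair (ψ : Bool → Perm (ZMod N)) (leg : Bool → Set (ZMod N)) (v : Bool → Bool → ZMod N)
    (P : Bool → Perm (Sym N)) : Prop where
  inv : ∀ i d, ψ (!i) (ψ i d) = d
  vv : ∀ i t, v (!i) t = ψ i (v i t)
  k1 : ∀ i d, d ∈ leg i → ψ i d ∉ leg (!i)
  k2 : ∀ i t, v i t ∉ leg i
  k3 : ∀ i d, d ∈ leg i ∨ ψ i d ∈ leg (!i) ∨ ∃ t, d = v i t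
  half : ∀ i, HalfSys (ψ i) (leg i) (v i) (P i)
  gen : ∀ t z, ∃ n : ℕ, z = (n : ZMod N) * (ψ false (v false t) - v false t)

/-- sign of a class -/
def sg (i : Bool) (z : ZMod N) : ZMod N := bif i then -z else z

@[simp] theorem sg_sg (i : Bool) (z : ZMod N) : sg i (sg i z) = z := by cases i <;> simp [sg]
@[simp] theorem sg_not (i : Bool) (z : ZMod N) : sg (!i) z = - sg i z := by cases i <;> simp [sg]
@[simp] theorem sg_neg (i : Bool) (z : ZMod N) : sg i (-z) = - sg i z := by cases i <;> simp [sg]
@[simp] theorem sg_zero (i : Bool) : sg i (0 : ZMod N) = 0 := by cases i <;> simp [sg]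
theorem sg_add (i : Bool) (z y : ZMod N) : sg i (z + y) = sg i z + sg i y := by
  cases i <;> simp [sg]; ring
theorem sg_sub (i : Bool) (z y : ZMod N) : sg i (z - y) = sg i z - sg i y := by
  rw [sub_eq_add_neg, sg_add, sg_neg, ← sub_eq_add_neg]

/-- the neighbours of `(i, 0)` named by the symbols -/
def toW (i : Bool) : Sym N ≃ Vx N where
  toFun s := match s with
    | .w v => Sum.inl (i, sg i v)
    | .c d => Sum.inl (!i, sg i d)
    | .x t => Sum.inr t
  invFun u := match u with
    | Sum.inl (j, z) => if j = i then .w (sg i z) else .c (sg i z)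
    | Sum.inr t => .x t
  left_inv s := by
    rcases s with v | d | t <;> simp
  right_inv u := by
    rcases u with ⟨j, z⟩ | t
    · rcases i <;> rcases j <;> simp
    · rfl

/-- translations -/
def shift (a : ZMod N) : Vx N ≃ Vx N where
  toFun u := match u with
    | Sum.inl (j, z) => Sum.inl (j, z + a)
    | Sum.inr t => Sum.inr t
  invFun u := match u with
    | Sum.inl (j, z) => Sum.inl (j, z - a)
    | Sum.inr t => Sum.inr t
  left_inv u := by rcases u with ⟨j, z⟩ | t <;> simp
  right_inv u := by rcases u with ⟨j, z⟩ | t <;> simp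

/-- the neighbours of `(i, a)` named by the symbols -/
def nm (i : Bool) (a : ZMod N) : Sym N ≃ Vx N := (toW i).trans (shift a)

theorem nm_w (i : Bool) (a v : ZMod N) : nm i a (.w v) = Sum.inl (i, sg i v + a) := rfl
theorem nm_c (i : Bool) (a v : ZMod N) : nm i a (.c v) = Sum.inl (!i, sg i v + a) := rfl
theorem nm_x (i : Bool) (a : ZMod N) (t : Bool) : nm i a (.x t) = Sum.inr t := rfl

/-- the rotation at the vertex `t` -/
def rx (ψ : Bool → Perm (ZMod N)) (v : Bool → Bool → ZMod N) (t : Bool) : Perm (Vx N) where
  toFun u := match u with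
    | Sum.inl (k, z) => Sum.inl (!k, z - sg (!k) (ψ (!k) (v (!k) t)))
    | Sum.inr s => Sum.inr s
  invFun u := match u with
    | Sum.inl (k, z) => Sum.inl (!k, z + sg k (ψ k (v k t)))
    | Sum.inr s => Sum.inr s
  left_inv u := by rcases u with ⟨k, z⟩ | s <;> simp
  right_inv u := by rcases u with ⟨k, z⟩ | s <;> simp

theorem rx_inl (ψ : Bool → Perm (ZMod N)) (v : Bool → Bool → ZMod N) (t k : Bool) (z : ZMod N) :
    rx ψ v t (Sum.inl (k, z)) = Sum.inl (!k, z - sg (!k) (ψ (!k) (v (!k) t))) := rfl

/-- the rotations -/
def rot (ψ : Bool → Perm (ZMod N)) (v : Bool → Bool → ZMod N) (P : Bool → Perm (Sym N)) :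
    Vx N → Perm (Vx N)
  | Sum.inl (i, a) => ((nm i a).symm.trans (P i)).trans (nm i a)
  | Sum.inr t => rx ψ v t

theorem rot_nm (ψ : Bool → Perm (ZMod N)) (v : Bool → Bool → ZMod N) (P : Bool → Perm (Sym N))
    (i : Bool) (a : ZMod N) (s : Sym N) :
    rot ψ v P (Sum.inl (i, a)) (nm i a s) = nm i a (P i s) := by
  show ((nm i a).symm.trans (P i)).trans (nm i a) (nm i a s) = _
  simp

/-- the graph `K_{2N} + 2 K_1` -/
def gr (N : ℕ) : SimpleGraph (Vx N) where
  Adj u v := u ≠ v ∧ ¬ (u.isRight = true ∧ v.isRight = true)
  symm := ⟨fun u v h => ⟨h.1.symm, fun h' => h.2 h'.symm⟩⟩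
  loopless := ⟨fun u h => h.1 rfl⟩

theorem same_conj {A B : Type*} [Finite A] (e : A ≃ B) (P : Perm A) {x y : A} (h : P.SameCycle x y) :
    Perm.SameCycle ((e.symm.trans P).trans e) (e x) (e y) := by
  obtain ⟨n, hn⟩ := h.exists_nat_pow_eq
  refine ⟨n, ?_⟩
  rw [zpow_natCast]
  have key : ∀ n : ℕ, (((e.symm.trans P).trans e : Perm B) ^ n) (e x) = e ((P ^ n) x) := by
    intro n
    induction n with
    | zero => simp
    | succ n ih => rw [pow_succ', Perm.mul_apply, ih, pow_succ', Perm.mul_apply]; simp
  rw [key, hn]

instance [NeZero N] : Finite (Sym N) := Finite.of_equiv _ (toW (N := N) false).symm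

theorem tri_of_pair [NeZero N] {ψ : Bool → Perm (ZMod N)} {leg : Bool → Set (ZMod N)}
    {v : Bool → Bool → ZMod N} {P : Bool → Perm (Sym N)} (h : Pair ψ leg v P) :
    Tri (gr N) (rot ψ v P) := by
  -- the rotation at a vertex of the first kind fixes this vertex
  have hfix : ∀ i a, rot ψ v P (Sum.inl (i, a)) (Sum.inl (i, a)) = Sum.inl (i, a) := by
    intro i a
    have h2 : (nm i a (.w 0) : Vx N) = Sum.inl (i, a) := by rw [nm_w]; simp
    have h3 := rot_nm ψ v P i a (.w 0)
    rw [(h.half i).zero, h2] at h3
    exact h3
  have hinv : ∀ i d, ψ i (ψ (!i) d) = d := fun i d => by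
    have := h.inv (!i) d
    simpa using this
  refine ⟨?_, ?_, ?_⟩
  · rintro (⟨i, a⟩ | t) u ⟨h1, h2⟩
    · refine ⟨fun h3 => h1 ?_, by simp⟩
      exact (rot ψ v P (Sum.inl (i, a))).injective ((hfix i a).trans h3)
    · rcases u with ⟨k, z⟩ | s
      · exact ⟨by simp [rot, rx], by simp [rot, rx]⟩
      · simp at h2
  · rintro (⟨i, a⟩ | t) u u' ⟨h1, h2⟩ ⟨h3, h4⟩
    · have h5 : (Sum.inl (i, a) : Vx N) = nm i a (.w 0) := by rw [nm_w]; simp
      have h6 := same_conj (nm i a) (P i) ((h.half i).trans ((nm i a).symm u) ((nm i a).symm u')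
        (fun h7 => h1 (by rw [h5, ← h7, Equiv.apply_symm_apply]))
        (fun h7 => h3 (by rw [h5, ← h7, Equiv.apply_symm_apply])))
      rw [Equiv.apply_symm_apply, Equiv.apply_symm_apply] at h6
      exact h6
    · rcases u with ⟨k, z⟩ | s
      swap
      · simp at h2
      rcases u' with ⟨k', z'⟩ | s
      swap
      · simp at h4
      show (rx ψ v t).SameCycle _ _
      set g : ZMod N := ψ false (v false t) - v false t with hg
      have hv1 : v true t = ψ false (v false t) := h.vv false t
      have hv2 : ψ true (v true t) = v false t := by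
        have := h.vv true t
        exact this.symm
      -- two steps
      have hstep : ∀ z, (rx ψ v t).SameCycle (Sum.inl (false, z)) (Sum.inl (false, z - g)) := by
        intro z
        have h5 : rx ψ v t (rx ψ v t (Sum.inl (false, z))) = Sum.inl (false, z - g) := by
          rw [rx_inl, rx_inl]
          simp only [Bool.not_false, Bool.not_true, Sum.inl.injEq, Prod.mk.injEq, true_and]
          rw [hv2, hg]
          simp [sg]
          ring
        rw [← h5]
        exact Perm.sameCycle_apply_right.2 (Perm.sameCycle_apply_right.2 (Perm.SameCycle.refl _ _))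
      have hn : ∀ (n : ℕ) z, (rx ψ v t).SameCycle (Sum.inl (false, z))
          (Sum.inl (false, z - n * g)) := by
        intro n
        induction n with
        | zero => intro z; simpa using Perm.SameCycle.refl _ _
        | succ n ih =>
          intro z
          have h5 := (ih z).trans (hstep _)
          have h6 : z - (n : ZMod N) * g - g = z - ((n + 1 : ℕ) : ZMod N) * g := by
            push_cast
            ring
          rw [h6] at h5
          exact h5
      have hff : ∀ z z', (rx ψ v t).SameCycle (Sum.inl (false, z)) (Sum.inl (false, z')) := by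
        intro z z'
        obtain ⟨n, hn'⟩ := h.gen t (z - z')
        have := hn n z
        rw [← hg] at hn'
        rw [← hn'] at this
        simpa using this
      have hto : ∀ k z, ∃ z', (rx ψ v t).SameCycle (Sum.inl (k, z)) (Sum.inl (false, z')) := by
        intro k z
        rcases k with _ | _
        · exact ⟨z, Perm.SameCycle.refl _ _⟩
        · refine ⟨z - sg false (ψ false (v false t)), ?_⟩
          have h5 := rx_inl ψ v t true z
          simp only [Bool.not_true] at h5
          rw [← h5]
          exact Perm.sameCycle_apply_right.2 (Perm.SameCycle.refl _ _)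
      obtain ⟨y, hy⟩ := hto k z
      obtain ⟨y', hy'⟩ := hto k' z'
      exact hy.trans ((hff _ _).trans hy'.symm)
  · rintro (⟨i, a⟩ | t) u ⟨h1, h2⟩
    · have h5 : (Sum.inl (i, a) : Vx N) = nm i a (.w 0) := by rw [nm_w]; simp
      obtain ⟨s, rfl⟩ := (nm i a).surjective u
      have hs : s ≠ .w 0 := fun hs => h1 (by rw [h5, hs])
      rw [rot_nm]
      have H := h.half i
      have H' := h.half (!i)
      -- the next symbol
      have hww : ∀ u', P i s = .w u' → rot ψ v P (nm i a (P i s)) (Sum.inl (i, a)) = nm i a s := by
        intro u' hu'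
        rw [hu', nm_w]
        have e1 : (Sum.inl (i, a) : Vx N) = nm i (sg i u' + a) (.w (-u')) := by
          rw [nm_w]; simp
        conv_lhs => rw [e1]
        rw [rot_nm]
        rcases s with u0 | d | t
        · -- a pure vertex
          have hu0 : u0 ≠ 0 := fun h => hs (by rw [h])
          by_cases hL : ∀ d ∈ leg i, ψ i d - d ≠ u0
          · obtain ⟨u'', e2, e3⟩ := H.pure u0 hu0 hL
            rw [hu'] at e2
            injection e2 with e2
            rw [e2, e3, nm_w, nm_w, sg_sub]
            congr 2
            ring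
          · push Not at hL
            obtain ⟨d, hd, hd'⟩ := hL
            rw [← hd', H.exit d hd] at hu'
            exact absurd hu' (by simp)
        · -- down a leg
          by_cases hd : d ∈ leg i
          · rw [H.cleg d hd] at hu'
            injection hu' with hu'
            rw [← hu', neg_sub, H.exit d hd, nm_c, nm_c, sg_sub]
            congr 2
            ring
          · by_cases hv : ∀ t, d ≠ v i t
            · rw [H.cstr d hd hv] at hu'
              exact absurd hu' (by simp)
            · push Not at hv
              obtain ⟨t, ht⟩ := hv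
              rw [ht, H.cv] at hu'
              exact absurd hu' (by simp)
        · rw [H.xv] at hu'
          exact absurd hu' (by simp)
      have hcc : ∀ d', P i s = .c d' → rot ψ v P (nm i a (P i s)) (Sum.inl (i, a)) = nm i a s := by
        intro d' hd'
        rw [hd', nm_c]
        have e1 : (Sum.inl (i, a) : Vx N) = nm (!i) (sg i d' + a) (.c d') := by
          rw [nm_c]; simp
        conv_lhs => rw [e1]
        rw [rot_nm]
        rcases s with u0 | d | t
        · -- back to the cross edges
          have hu0 : u0 ≠ 0 := fun h => hs (by rw [h])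
          by_cases hL : ∀ d ∈ leg i, ψ i d - d ≠ u0
          · obtain ⟨u'', e2, e3⟩ := H.pure u0 hu0 hL
            rw [hd'] at e2
            exact absurd e2 (by simp)
          · push Not at hL
            obtain ⟨d, hd, hd1⟩ := hL
            rw [← hd1, H.exit d hd] at hd'
            injection hd' with hd'
            have e2 : P (!i) (.c d') = .c d := by
              rw [← hd', H'.cstr _ (h.k1 i d hd), h.inv]
              intro t ht
              rw [h.vv i t] at ht
              exact h.k2 i t ((ψ i).injective ht ▸ hd)
            rw [e2, nm_c, nm_w, ← hd1, ← hd', sg_sub]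
            simp
            ring
        · by_cases hd : d ∈ leg i
          · rw [H.cleg d hd] at hd'
            exact absurd hd' (by simp)
          · by_cases hv : ∀ t, d ≠ v i t
            · rw [H.cstr d hd hv] at hd'
              injection hd' with hd'
              have hl : ψ i d ∈ leg (!i) := by
                rcases h.k3 i d with h6 | h6 | ⟨t, h6⟩
                · exact absurd h6 hd
                · exact h6
                · exact absurd h6 (hv t)
              rw [← hd', H'.cleg _ hl, h.inv, nm_w, nm_c, sg_sub]
              simp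
              ring
            · push Not at hv
              obtain ⟨t, ht⟩ := hv
              rw [ht, H.cv] at hd'
              exact absurd hd' (by simp)
        · rw [H.xv] at hd'
          injection hd' with hd'
          rw [← hd', ← h.vv, H'.cv, nm_x, nm_x]
      have hxx : ∀ t, P i s = .x t → rot ψ v P (nm i a (P i s)) (Sum.inl (i, a)) = nm i a s := by
        intro t ht
        rw [ht, nm_x]
        rcases s with u0 | d | t'
        · have hu0 : u0 ≠ 0 := fun h => hs (by rw [h])
          by_cases hL : ∀ d ∈ leg i, ψ i d - d ≠ u0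
          · obtain ⟨u'', e2, e3⟩ := H.pure u0 hu0 hL
            rw [ht] at e2
            exact absurd e2 (by simp)
          · push Not at hL
            obtain ⟨d, hd, hd1⟩ := hL
            rw [← hd1, H.exit d hd] at ht
            exact absurd ht (by simp)
        · by_cases hd : d ∈ leg i
          · rw [H.cleg d hd] at ht
            exact absurd ht (by simp)
          · by_cases hv : ∀ t, d ≠ v i t
            · rw [H.cstr d hd hv] at ht
              exact absurd ht (by simp)
            · push Not at hv
              obtain ⟨t', ht'⟩ := hv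
              rw [ht', H.cv] at ht
              injection ht with ht
              subst ht
              show rx ψ v t' (Sum.inl (i, a)) = _
              rw [rx_inl, nm_c, ht', h.vv i t', h.inv]
              simp
              ring
        · rw [H.xv] at ht
          exact absurd ht (by simp)
      rcases hP : P i s with u' | d' | t
      · rw [← hP]; exact hww u' hP
      · rw [← hP]; exact hcc d' hP
      · rw [← hP]; exact hxx t hP
    · rcases u with ⟨k, z⟩ | s
      swap
      · simp at h2
      have e0 : rot ψ v P (Sum.inr t) (Sum.inl (k, z)) =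
          Sum.inl (!k, z - sg (!k) (ψ (!k) (v (!k) t))) := rfl
      rw [e0]
      have e1 : (Sum.inr t : Vx N) = nm (!k) (z - sg (!k) (ψ (!k) (v (!k) t))) (.x t) := rfl
      rw [e1, rot_nm, (h.half (!k)).xv, nm_c]
      simp

end Pool.Agent.J4.H47.KM
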