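import Pool.Agent.J4.H47.KM.Orient
import Pool.Agent.J4.H47.KM.Two
import Pool.Agent.J4.H47.KM.Lang

/-!
# The face of one class

From a permutation of the cross differences with two cycles and the triples with sum zero we construct a
permutation of the symbols.
-/

set_option autoImplicit false

namespace Pool.Agent.J4.H47.KM

open Equiv

theorem castinj {s : ℕ} {a b : ℤ} (h : |b - a| < 12 * s) (e : (a : ZMod (12 * s)) = b) : a = b := by
  rw [ZMod.intCast_eq_intCast_iff_dvd_sub] at e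
  have := Int.eq_zero_of_abs_lt_dvd e (by push_cast; exact h)
  omega

/-- The order of the cross edges. -/
structure Cross (s : ℕ) (μ : ℤ) (ψ : Perm (ZMod (12 * s))) (Δ : ZMod (12 * s) → ℤ)
    (C : Set (ZMod (12 * s))) : Prop where
  step : ∀ d, ψ d = d + (Δ d : ZMod (12 * s))
  rng : ∀ d, |Δ d| ≤ 6 * s - 1
  ne : ∀ d, Δ d ≠ 0
  inv : ∀ d, ψ d ∈ C ↔ d ∈ C
  one : ∀ x ∈ C, ∀ y ∈ C, ψ.SameCycle x y
  two : ∀ x ∉ C, ∀ y ∉ C, ψ.SameCycle x y
  ex : ∀ e : ℤ, |e| ≤ 6 * s - 1 → e ≠ 0 → |e| ≠ μ → ∃ d, Δ d = e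
  exin : ∀ e : ℤ, |e| = μ → ∃ d ∈ C, Δ d = e
  exout : ∀ e : ℤ, |e| = μ → ∃ d ∉ C, Δ d = e
  uniq : ∀ d d', Δ d = Δ d' → (|Δ d| = μ → (d ∈ C ↔ d' ∈ C)) → d = d'
  out1 : μ ≠ 1 → ∀ d, |Δ d| = 1 → d ∉ C
  outa : μ = 1 → ∀ d, |Δ d| = 6 * s - 1 → d ∉ C

theorem Cross.flip {s : ℕ} {μ : ℤ} {ψ : Perm (ZMod (12 * s))} {Δ : ZMod (12 * s) → ℤ}
    {C : Set (ZMod (12 * s))} (h : Cross s μ ψ Δ C) :
    Cross s μ ψ.symm (fun d => -Δ (ψ.symm d)) C := by
  have hin : ∀ d, ψ.symm d ∈ C ↔ d ∈ C := fun d => by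
    have := h.inv (ψ.symm d)
    rw [Equiv.apply_symm_apply] at this
    exact this.symm
  refine ⟨?_, ?_, ?_, hin, ?_, ?_, ?_, ?_, ?_, ?_, ?_, ?_⟩
  · intro d
    have := h.step (ψ.symm d)
    rw [Equiv.apply_symm_apply] at this
    push_cast
    linear_combination -this
  · intro d
    rw [abs_neg]
    exact h.rng _
  · intro d
    have := h.ne (ψ.symm d)
    omega
  · intro x hx y hy
    exact Perm.sameCycle_inv.2 (h.one x hx y hy)
  · intro x hx y hy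
    exact Perm.sameCycle_inv.2 (h.two x hx y hy)
  · intro e h1 h2 h3
    obtain ⟨d, hd⟩ := h.ex (-e) (by rwa [abs_neg]) (by omega) (by rwa [abs_neg])
    exact ⟨ψ d, by simp [hd]⟩
  · intro e h1
    obtain ⟨d, hd1, hd⟩ := h.exin (-e) (by rwa [abs_neg])
    exact ⟨ψ d, (h.inv d).2 hd1, by simp [hd]⟩
  · intro e h1
    obtain ⟨d, hd1, hd⟩ := h.exout (-e) (by rwa [abs_neg])
    exact ⟨ψ d, fun h2 => hd1 ((h.inv d).1 h2), by simp [hd]⟩
  · intro d d' h1 h2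
    have := h.uniq (ψ.symm d) (ψ.symm d') (by omega) (fun h3 => by
      rw [hin, hin]
      exact h2 (by rw [abs_neg]; exact h3))
    exact ψ.symm.injective this
  · intro h1 d h2
    rw [abs_neg] at h2
    rw [← hin]
    exact h.out1 h1 _ h2
  · intro h1 d h2
    rw [abs_neg] at h2
    rw [← hin]
    exact h.outa h1 _ h2

/-- the parameters -/
structure Par (s : ℕ) (μ : ℤ) : Prop where
  s1 : 1 ≤ s
  m1 : 1 ≤ μ
  m2 : μ ≤ 6 * s - 2

/-- the differences of the legs -/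
def Lset (s : ℕ) (μ : ℤ) {ι : Type} (T : ι → Fin 3 → ℤ) : Set ℤ :=
  {e | e ≠ -1 ∧ (e = 6 * s - 1 ∨ |e| = μ ∨ ∃ i r, T i r = e)}

/-- the legs -/
def legs (s : ℕ) (μ : ℤ) {ι : Type} (T : ι → Fin 3 → ℤ) (Δ : ZMod (12 * s) → ℤ)
    (C : Set (ZMod (12 * s))) : Set (ZMod (12 * s)) :=
  {d | Δ d ∈ Lset s μ T ∧ (Δ d = μ → d ∈ C) ∧ (Δ d = -μ → d ∉ C)}

section L

variable {s : ℕ} {μ : ℤ} {ι : Type} {T : ι → Fin 3 → ℤ}

theorem L_bd (hp : Par s μ) (hT : Trip s μ T) {e : ℤ} (he : e ∈ Lset s μ T) :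
    |e| ≤ 6 * s - 1 ∧ e ≠ 0 := by
  have h1 := hp.s1
  have h2 := hp.m1
  have h3 := hp.m2
  have h4 := abs_cases e
  rcases he.2 with h | h | ⟨i, r, h⟩
  · omega
  · omega
  · have := hT.rng i r
    rw [h] at this
    omega

theorem L_cover (hT : Trip s μ T) {e : ℤ} (h1 : |e| ≤ 6 * s - 1) (h2 : e ≠ 0) :
    e ∈ Lset s μ T ∨ -e ∈ Lset s μ T ∨ |e| = 1 := by
  by_cases h3 : |e| = 1
  · exact Or.inr (Or.inr h3)
  have h4 := abs_cases e
  have h5 := abs_neg e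
  by_cases h6 : |e| = 6 * s - 1
  · rcases h4 with h4 | h4
    · exact Or.inl ⟨by omega, Or.inl (by omega)⟩
    · exact Or.inr (Or.inl ⟨by omega, Or.inl (by omega)⟩)
  by_cases h7 : |e| = μ
  · exact Or.inl ⟨by omega, Or.inr (Or.inl h7)⟩
  obtain ⟨i, r, h8⟩ := hT.cov |e| (by omega) (by omega) h7
  have h9 := abs_cases (T i r)
  rcases (show T i r = e ∨ T i r = -e by omega) with h10 | h10
  · exact Or.inl ⟨by omega, Or.inr (Or.inr ⟨i, r, h10⟩)⟩
  · exact Or.inr (Or.inl ⟨by omega, Or.inr (Or.inr ⟨i, r, h10⟩)⟩)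

theorem L_both (hp : Par s μ) (hT : Trip s μ T) {e : ℤ} (he : e ∈ Lset s μ T)
    (he' : -e ∈ Lset s μ T) : |e| = μ ∧ μ ≠ 1 := by
  have h1 := hp.s1
  have h2 := hp.m1
  have h3 := hp.m2
  have h4 := abs_cases e
  have h5 := abs_neg e
  obtain ⟨a1, a2⟩ := he
  obtain ⟨b1, b2⟩ := he'
  rcases a2 with h | h | ⟨i, r, h⟩
  · exfalso
    rcases b2 with h' | h' | ⟨j, r', h'⟩
    · omega
    · omega
    · have := hT.rng j r'
      rw [h'] at this
      omega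
  · exact ⟨h, by omega⟩
  · exfalso
    have h6 := hT.rng i r
    have h7 := hT.neμ i r
    rw [h] at h6 h7
    rcases b2 with h' | h' | ⟨j, r', h'⟩
    · omega
    · omega
    · have h8 := hT.inj i j r r' (by rw [h, h', abs_neg])
      obtain ⟨rfl, rfl⟩ := h8
      omega

theorem L_one (hp : Par s μ) (hT : Trip s μ T) : (1 : ℤ) ∈ Lset s μ T ↔ μ = 1 := by
  have h1 := hp.s1
  constructor
  · rintro ⟨-, h | h | ⟨i, r, h⟩⟩
    · omega
    · rw [abs_one] at h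
      exact h.symm
    · exact absurd h (hT.ne1 i r)
  · rintro rfl
    exact ⟨by norm_num, Or.inr (Or.inl abs_one)⟩

theorem L_alpha (hp : Par s μ) : (6 * s - 1 : ℤ) ∈ Lset s μ T := by
  have h1 := hp.s1
  exact ⟨by omega, Or.inl rfl⟩

theorem L_negalpha (hp : Par s μ) (hT : Trip s μ T) : (-(6 * s - 1) : ℤ) ∉ Lset s μ T := by
  intro h
  have h1 := L_both hp hT (L_alpha hp) h
  have h2 := hp.s1
  have h3 := hp.m2
  have := abs_cases (6 * s - 1 : ℤ)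
  omega

theorem L_h (hp : Par s μ) (hT : Trip s μ T) : (6 * s : ℤ) ∉ Lset s μ T := by
  intro h
  have h1 := L_bd hp hT h
  have := abs_cases (6 * s : ℤ)
  omega

theorem L_h' (hp : Par s μ) (hT : Trip s μ T) : (-(6 * s) : ℤ) ∉ Lset s μ T := by
  intro h
  have h1 := L_bd hp hT h
  have := abs_cases (-(6 * s) : ℤ)
  omega

theorem L_T (hT : Trip s μ T) {i : ι} {r : Fin 3} (h : T i r ≠ -1) : T i r ∈ Lset s μ T :=
  ⟨h, Or.inr (Or.inr ⟨i, r, rfl⟩)⟩

theorem L_negT (hp : Par s μ) (hT : Trip s μ T) (i : ι) (r : Fin 3) : -T i r ∉ Lset s μ T := by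
  intro h
  by_cases h1 : T i r = -1
  · rw [h1, neg_neg, L_one hp hT] at h
    have := hT.neμ i r
    rw [h1, h] at this
    exact this (by simp)
  · have := L_both hp hT (L_T hT h1) h
    exact hT.neμ i r this.1

theorem T_not (hT : Trip s μ T) (i : ι) (r : Fin 3) : T i r ≠ 0 ∧ T i r ≠ 1 ∧ T i r ≠ 6 * s - 1 ∧
    |T i r| ≤ 6 * s - 2 := by
  have h1 := hT.ne1 i r
  have h2 := hT.rng i r
  have h3 := abs_cases (T i r)
  omega

end L

/-- the cycle `6 s - 1 → 1 → 6 s → 6 s - 1` -/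
noncomputable def tau (s : ℕ) (u : ZMod (12 * s)) : ZMod (12 * s) := by
  classical
  exact if u = ((1 : ℤ) : ZMod (12 * s)) then ((6 * s : ℤ) : ZMod (12 * s))
    else if u = ((6 * s : ℤ) : ZMod (12 * s)) then ((6 * s - 1 : ℤ) : ZMod (12 * s))
    else if u = ((6 * s - 1 : ℤ) : ZMod (12 * s)) then ((1 : ℤ) : ZMod (12 * s)) else u

theorem tau_one (s : ℕ) : tau s ((1 : ℤ) : ZMod (12 * s)) = ((6 * s : ℤ) : ZMod (12 * s)) := by
  unfold tau
  rw [if_pos rfl]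

theorem tau_h {s : ℕ} (hs : 1 ≤ s) :
    tau s ((6 * s : ℤ) : ZMod (12 * s)) = ((6 * s - 1 : ℤ) : ZMod (12 * s)) := by
  unfold tau
  rw [if_neg, if_pos rfl]
  intro h
  have := castinj (by have := abs_cases (1 - 6 * s : ℤ); omega) h
  omega

theorem tau_a {s : ℕ} (hs : 1 ≤ s) :
    tau s ((6 * s - 1 : ℤ) : ZMod (12 * s)) = ((1 : ℤ) : ZMod (12 * s)) := by
  unfold tau
  rw [if_neg, if_neg, if_pos rfl]
  · intro h
    have := castinj (by have := abs_cases (6 * s - (6 * s - 1) : ℤ); omega) h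
    omega
  · intro h
    have := castinj (by have := abs_cases (1 - (6 * s - 1) : ℤ); omega) h
    omega

theorem tau_of {s : ℕ} {z : ℤ} (h : |z| ≤ 6 * s - 1) (h1 : z ≠ 1) (h2 : z ≠ 6 * s - 1) :
    tau s (z : ZMod (12 * s)) = (z : ZMod (12 * s)) := by
  unfold tau
  have h3 := abs_cases z
  rw [if_neg, if_neg, if_neg]
  · intro h
    have := castinj (by have := abs_cases (6 * s - 1 - z : ℤ); omega) h
    omega
  · intro h
    have := castinj (by have := abs_cases (6 * s - z : ℤ); omega) h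
    omega
  · intro h
    have := castinj (by have := abs_cases (1 - z : ℤ); omega) h
    omega

theorem neg_h (s : ℕ) : -((6 * s : ℤ) : ZMod (12 * s)) = ((6 * s : ℤ) : ZMod (12 * s)) := by
  have h : ((12 * s : ℕ) : ZMod (12 * s)) = 0 := ZMod.natCast_self _
  push_cast at h ⊢
  linear_combination -h

/-- the face without the tripods -/
noncomputable def base {s : ℕ} (ψ : Perm (ZMod (12 * s))) (Δ : ZMod (12 * s) → ℤ)
    (lg : Set (ZMod (12 * s))) (v : Bool → ZMod (12 * s)) (p : Sym (12 * s)) : Sym (12 * s) := by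
  classical
  exact match p with
  | .w u => if u = 0 then .w 0
      else if h : ∃ d ∈ lg, ((Δ d : ℤ) : ZMod (12 * s)) = u then .c (ψ h.choose)
      else .w (tau s (-u))
  | .c d => if h : ∃ t, v t = d then .x h.choose
      else if d ∈ lg then .w (-((Δ d : ℤ) : ZMod (12 * s)))
      else .c (ψ d)
  | .x t => .c (ψ (v t))

/-- the hypotheses on one class -/
structure Hyp (s : ℕ) (μ : ℤ) (ψ : Perm (ZMod (12 * s))) (Δ : ZMod (12 * s) → ℤ)
    (C : Set (ZMod (12 * s))) {ι : Type} (T : ι → Fin 3 → ℤ) (v : Bool → ZMod (12 * s)) : Prop where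
  par : Par s μ
  cross : Cross s μ ψ Δ C
  trip : Trip s μ T
  hv : ∀ t, v t ∉ C ∧ |Δ (v t)| = 1
  hvv : v false ≠ v true

section base

variable {s : ℕ} {μ : ℤ} {ψ : Perm (ZMod (12 * s))} {Δ : ZMod (12 * s) → ℤ}
  {C : Set (ZMod (12 * s))} {ι : Type} {T : ι → Fin 3 → ℤ} {v : Bool → ZMod (12 * s)}

theorem Hyp.vinj (H : Hyp s μ ψ Δ C T v) {t t' : Bool} (h : v t = v t') : t = t' := by
  rcases t with _ | _ <;> rcases t' with _ | _
  · rfl
  · exact absurd h H.hvv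
  · exact absurd h.symm H.hvv
  · rfl

theorem Hyp.vleg (H : Hyp s μ ψ Δ C T v) (t : Bool) : v t ∉ legs s μ T Δ C := by
  intro h
  have h1 := H.par.s1
  have h2 := H.hv t
  obtain ⟨⟨h3, h4⟩, h5, h6⟩ := h
  have h7 := abs_cases (Δ (v t))
  have h8 : Δ (v t) = 1 := by
    clear h4
    omega
  have h9 : (1 : ℤ) ∈ Lset s μ T := by
    rw [← h8]
    exact ⟨h3, h4⟩
  rw [L_one H.par H.trip] at h9
  exact h2.1 (h5 (by omega))

theorem Hyp.leg_inj (H : Hyp s μ ψ Δ C T v) {d d' : ZMod (12 * s)} (hd : d ∈ legs s μ T Δ C)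
    (hd' : d' ∈ legs s μ T Δ C) (h : Δ d = Δ d') : d = d' := by
  refine H.cross.uniq _ _ h fun h1 => ?_
  have h2 := abs_cases (Δ d)
  rcases (show Δ d = μ ∨ Δ d = -μ by omega) with h3 | h3
  · exact ⟨fun _ => hd'.2.1 (by omega), fun _ => hd.2.1 h3⟩
  · exact ⟨fun h4 => absurd h4 (hd.2.2 h3), fun h4 => absurd h4 (hd'.2.2 (by omega))⟩

theorem Hyp.leg_cast (H : Hyp s μ ψ Δ C T v) {d : ZMod (12 * s)} {z : ℤ} (hz : |z| ≤ 6 * s)
    (h : ((Δ d : ℤ) : ZMod (12 * s)) = (z : ZMod (12 * s))) : Δ d = z := by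
  have h1 := H.cross.rng d
  apply castinj _ h
  have h2 := abs_cases z
  have h3 := abs_cases (Δ d)
  have h4 := abs_cases (z - Δ d)
  omega

theorem Hyp.leg_ex (H : Hyp s μ ψ Δ C T v) {e : ℤ} (he : e ∈ Lset s μ T) :
    ∃ d ∈ legs s μ T Δ C, Δ d = e := by
  have hm := H.par.m1
  by_cases h1 : |e| = μ
  · have h2 := abs_cases e
    rcases (show e = μ ∨ e = -μ by omega) with h3 | h3
    · obtain ⟨d, h4, h5⟩ := H.cross.exin e h1
      exact ⟨d, ⟨by rw [h5]; exact he, fun _ => h4, fun h6 => by omega⟩, h5⟩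
    · obtain ⟨d, h4, h5⟩ := H.cross.exout e h1
      exact ⟨d, ⟨by rw [h5]; exact he, fun h6 => by omega, fun _ => h4⟩, h5⟩
  · have h2 := L_bd H.par H.trip he
    obtain ⟨d, hd⟩ := H.cross.ex e h2.1 h2.2 h1
    have h3 := abs_cases e
    refine ⟨d, ⟨by rw [hd]; exact he, fun h6 => ?_, fun h6 => ?_⟩, hd⟩
    · omega
    · omega

theorem Hyp.not_exit (H : Hyp s μ ψ Δ C T v) {z : ℤ} (hz : |z| ≤ 6 * s) (h : z ∉ Lset s μ T) :
    ∀ d ∈ legs s μ T Δ C, ((Δ d : ℤ) : ZMod (12 * s)) ≠ (z : ZMod (12 * s)) := by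
  intro d hd h1
  have := H.leg_cast hz h1
  rw [← this] at h
  exact h hd.1

theorem base_x (t : Bool) : base ψ Δ (legs s μ T Δ C) v (.x t) = .c (ψ (v t)) := rfl

theorem base_w0 : base ψ Δ (legs s μ T Δ C) v (.w 0) = .w 0 := by
  simp [base]

theorem Hyp.base_v (H : Hyp s μ ψ Δ C T v) (t : Bool) :
    base ψ Δ (legs s μ T Δ C) v (.c (v t)) = .x t := by
  have h : ∃ t', v t' = v t := ⟨t, rfl⟩
  have h1 : base ψ Δ (legs s μ T Δ C) v (.c (v t)) = .x h.choose := by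
    unfold base
    simp only
    rw [dif_pos h]
  rw [h1, H.vinj h.choose_spec]

theorem Hyp.base_leg (H : Hyp s μ ψ Δ C T v) {d : ZMod (12 * s)} (hd : d ∈ legs s μ T Δ C) :
    base ψ Δ (legs s μ T Δ C) v (.c d) = .w (-((Δ d : ℤ) : ZMod (12 * s))) := by
  have h : ¬ ∃ t', v t' = d := by
    rintro ⟨t, rfl⟩
    exact H.vleg t hd
  unfold base
  simp only
  rw [dif_neg h, if_pos hd]

theorem base_str {d : ZMod (12 * s)} (hd : d ∉ legs s μ T Δ C)
    (hd' : ∀ t, d ≠ v t) : base ψ Δ (legs s μ T Δ C) v (.c d) = .c (ψ d) := by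
  have h : ¬ ∃ t', v t' = d := by
    rintro ⟨t, rfl⟩
    exact hd' t rfl
  unfold base
  simp only
  rw [dif_neg h, if_neg hd]

theorem Hyp.base_exit (H : Hyp s μ ψ Δ C T v) {d : ZMod (12 * s)} (hd : d ∈ legs s μ T Δ C) :
    base ψ Δ (legs s μ T Δ C) v (.w ((Δ d : ℤ) : ZMod (12 * s))) = .c (ψ d) := by
  have h : ∃ d' ∈ legs s μ T Δ C, ((Δ d' : ℤ) : ZMod (12 * s)) = ((Δ d : ℤ) : ZMod (12 * s)) :=
    ⟨d, hd, rfl⟩
  have h0 : ((Δ d : ℤ) : ZMod (12 * s)) ≠ 0 := by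
    intro h0
    have := H.leg_cast (d := d) (z := 0) (by simp) (by simpa using h0)
    exact H.cross.ne d this
  have h1 : base ψ Δ (legs s μ T Δ C) v (.w ((Δ d : ℤ) : ZMod (12 * s))) = .c (ψ h.choose) := by
    unfold base
    simp only
    rw [if_neg h0, dif_pos h]
  have h2 := h.choose_spec
  have h3 := H.leg_cast (by have := H.cross.rng d; omega) h2.2
  rw [h1, H.leg_inj h2.1 hd h3]

theorem base_pure {u : ZMod (12 * s)} (h0 : u ≠ 0)
    (hu : ∀ d ∈ legs s μ T Δ C, ((Δ d : ℤ) : ZMod (12 * s)) ≠ u) :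
    base ψ Δ (legs s μ T Δ C) v (.w u) = .w (tau s (-u)) := by
  have h : ¬ ∃ d ∈ legs s μ T Δ C, ((Δ d : ℤ) : ZMod (12 * s)) = u := by
    rintro ⟨d, hd, hd'⟩
    exact hu d hd hd'
  unfold base
  simp only
  rw [if_neg h0, dif_neg h]

theorem castne {z : ℤ} (h0 : z ≠ 0) (hz : |z| ≤ 6 * s) : (z : ZMod (12 * s)) ≠ 0 := by
  intro h
  have h1 := castinj (a := z) (b := 0) (s := s) (by rw [zero_sub, abs_neg]; have := abs_cases z; omega)
    (by simpa using h)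
  exact h0 h1

theorem Hyp.base_int (H : Hyp s μ ψ Δ C T v) {z : ℤ} (h0 : z ≠ 0) (hz : |z| ≤ 6 * s)
    (h : z ∉ Lset s μ T) : base ψ Δ (legs s μ T Δ C) v (.w (z : ZMod (12 * s))) =
      .w (tau s ((-z : ℤ) : ZMod (12 * s))) := by
  rw [base_pure (castne h0 hz) (H.not_exit hz h)]
  push_cast
  rfl

/-- representatives -/
theorem rep (hs : 1 ≤ s) (u : ZMod (12 * s)) : ∃ z : ℤ, (z : ZMod (12 * s)) = u ∧ -(6 * s) < z ∧ z ≤ 6 * s := by
  have : NeZero (12 * s) := ⟨by omega⟩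
  refine ⟨u.valMinAbs, ZMod.coe_valMinAbs u, ?_⟩
  have := ZMod.valMinAbs_mem_Ioc u
  have h1 := this.1
  have h2 := this.2
  push_cast at h1 h2
  omega

end base

end Pool.Agent.J4.H47.KM
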