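import Pool.Agent.J4.H47.KM.Half

/-!
# The face of one class, continued
-/

set_option autoImplicit false

namespace Pool.Agent.J4.H47.KM

open Equiv

variable {s : ℕ} {μ : ℤ} {ψ : Perm (ZMod (12 * s))} {Δ : ZMod (12 * s) → ℤ}
  {C : Set (ZMod (12 * s))} {ι : Type} {T : ι → Fin 3 → ℤ} {v : Bool → ZMod (12 * s)}

theorem Hyp.base_m1 (H : Hyp s μ ψ Δ C T v) : base ψ Δ (legs s μ T Δ C) v
    (.w ((-1 : ℤ) : ZMod (12 * s))) = .w ((6 * s : ℤ) : ZMod (12 * s)) := by
  have hs := H.par.s1
  have h1 : (-1 : ℤ) ∉ Lset s μ T := fun h => h.1 rfl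
  rw [H.base_int (by norm_num) (by simp; omega) h1, neg_neg, tau_one]

theorem Hyp.base_6 (H : Hyp s μ ψ Δ C T v) : base ψ Δ (legs s μ T Δ C) v
    (.w ((6 * s : ℤ) : ZMod (12 * s))) = .w ((6 * s - 1 : ℤ) : ZMod (12 * s)) := by
  have hs := H.par.s1
  rw [H.base_int (by omega) (by rw [abs_of_pos (by omega)]) (L_h H.par H.trip)]
  rw [Int.cast_neg, neg_h, tau_h hs]

theorem Hyp.base_ma (H : Hyp s μ ψ Δ C T v) : base ψ Δ (legs s μ T Δ C) v
    (.w ((-(6 * s - 1) : ℤ) : ZMod (12 * s))) = .w ((1 : ℤ) : ZMod (12 * s)) := by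
  have hs := H.par.s1
  rw [H.base_int (by omega) (by rw [abs_neg, abs_of_pos (by omega)]; omega)
    (L_negalpha H.par H.trip), neg_neg, tau_a hs]

theorem Hyp.base_1 (H : Hyp s μ ψ Δ C T v) (h : μ ≠ 1) : base ψ Δ (legs s μ T Δ C) v
    (.w ((1 : ℤ) : ZMod (12 * s))) = .w ((-1 : ℤ) : ZMod (12 * s)) := by
  have hs := H.par.s1
  have h1 : (1 : ℤ) ∉ Lset s μ T := fun h1 => h ((L_one H.par H.trip).1 h1)
  rw [H.base_int (by norm_num) (by simp; omega) h1, tau_of (by simp; omega) (by norm_num) (by omega)]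

theorem Hyp.base_surj (H : Hyp s μ ψ Δ C T v) :
    Function.Surjective (base ψ Δ (legs s μ T Δ C) v) := by
  have hs := H.par.s1
  intro p
  rcases p with u | d | t
  · by_cases h0 : u = 0
    · exact ⟨.w 0, by rw [base_w0, h0]⟩
    by_cases h1 : ∃ d ∈ legs s μ T Δ C, -((Δ d : ℤ) : ZMod (12 * s)) = u
    · obtain ⟨d, hd, hd'⟩ := h1
      exact ⟨.c d, by rw [H.base_leg hd, hd']⟩
    obtain ⟨z, rfl, h2, h3⟩ := rep hs u
    by_cases h4 : z = 1
    · subst h4
      exact ⟨_, H.base_ma⟩
    by_cases h5 : z = 6 * s - 1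
    · subst h5
      exact ⟨_, H.base_6⟩
    by_cases h6 : z = 6 * s
    · subst h6
      exact ⟨_, H.base_m1⟩
    · refine ⟨.w (-(z : ZMod (12 * s))), ?_⟩
      rw [base_pure (neg_ne_zero.2 h0), neg_neg, tau_of _ h4 h5]
      · have := abs_cases z
        omega
      · intro d hd h7
        exact h1 ⟨d, hd, by rw [h7, neg_neg]⟩
  · by_cases h1 : ∃ t, ψ.symm d = v t
    · obtain ⟨t, ht⟩ := h1
      exact ⟨.x t, by rw [base_x, ← ht, Equiv.apply_symm_apply]⟩
    · push Not at h1
      by_cases h2 : ψ.symm d ∈ legs s μ T Δ C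
      · exact ⟨_, by rw [H.base_exit h2, Equiv.apply_symm_apply]⟩
      · exact ⟨_, by rw [base_str h2 h1, Equiv.apply_symm_apply]⟩
  · exact ⟨_, H.base_v t⟩

/-- the face as a permutation -/
noncomputable def Hyp.F [NeZero (12 * s)] (H : Hyp s μ ψ Δ C T v) : Perm (Sym (12 * s)) :=
  Equiv.ofBijective (base ψ Δ (legs s μ T Δ C) v) (Finite.surjective_iff_bijective.1 H.base_surj)

theorem Hyp.F_apply [NeZero (12 * s)] (H : Hyp s μ ψ Δ C T v) (p : Sym (12 * s)) :
    H.F p = base ψ Δ (legs s μ T Δ C) v p := rfl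

theorem Hyp.F_step [NeZero (12 * s)] (H : Hyp s μ ψ Δ C T v) {p q : Sym (12 * s)}
    (h : base ψ Δ (legs s μ T Δ C) v p = q) : H.F.SameCycle p q := by
  rw [← h, ← H.F_apply]
  exact Perm.sameCycle_apply_right.2 (Perm.SameCycle.refl _ _)

theorem Hyp.leg_alpha (H : Hyp s μ ψ Δ C T v) : ∃ b ∈ legs s μ T Δ C, Δ b = 6 * s - 1 :=
  H.leg_ex (L_alpha H.par)

theorem Hyp.F_alpha [NeZero (12 * s)] (H : Hyp s μ ψ Δ C T v) {b : ZMod (12 * s)}
    (hb : b ∈ legs s μ T Δ C) (h : Δ b = 6 * s - 1) :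
    H.F.SameCycle (.w ((6 * s : ℤ) : ZMod (12 * s))) (.c (ψ b)) := by
  refine (H.F_step H.base_6).trans ?_
  have := H.base_exit hb
  rw [h] at this
  exact H.F_step this

/-- The order in which the cross edges are passed. -/
theorem Hyp.switch [NeZero (12 * s)] (H : Hyp s μ ψ Δ C T v) : ∃ a ∈ C, ∃ b, b ∉ C ∧
    H.F.SameCycle (.c a) (.c (ψ b)) ∧ H.F.SameCycle (.c b) (.c (ψ a)) ∧
    ∀ d, d ≠ a → d ≠ b → H.F.SameCycle (.c d) (.c (ψ d)) := by
  have hs := H.par.s1
  have hm1 := H.par.m1
  have hm2 := H.par.m2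
  -- the steps which are not legs
  have hnl : ∀ d, d ∉ legs s μ T Δ C → H.F.SameCycle (.c d) (.c (ψ d)) := by
    intro d hd
    by_cases h1 : ∃ t, d = v t
    · obtain ⟨t, rfl⟩ := h1
      exact (H.F_step (H.base_v t)).trans (H.F_step (base_x t))
    · push Not at h1
      exact H.F_step (base_str hd h1)
  -- the legs whose ends are not special
  have hl : ∀ d, d ∈ legs s μ T Δ C → -Δ d ∉ Lset s μ T → Δ d ≠ 1 → Δ d ≠ 6 * s - 1 →
      H.F.SameCycle (.c d) (.c (ψ d)) := by
    intro d hd h1 h2 h3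
    have hr := H.cross.rng d
    refine (H.F_step (H.base_leg hd)).trans ?_
    have h4 : base ψ Δ (legs s μ T Δ C) v (.w (-((Δ d : ℤ) : ZMod (12 * s)))) =
        .w ((Δ d : ℤ) : ZMod (12 * s)) := by
      have := H.base_int (z := -Δ d) (by have := H.cross.ne d; omega)
        (by rw [abs_neg]; omega) h1
      rw [neg_neg, tau_of hr h2 h3] at this
      rw [← this, Int.cast_neg]
    exact (H.F_step h4).trans (H.F_step (H.base_exit hd))
  by_cases hμ : μ = 1
  · obtain ⟨a, ha, ha'⟩ := H.leg_ex ((L_one H.par H.trip).2 hμ)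
    obtain ⟨b, hb, hb'⟩ := H.leg_alpha
    refine ⟨a, ha.2.1 (by omega), b, H.cross.outa hμ b ?_, ?_, ?_, ?_⟩
    · rw [hb', abs_of_pos (by omega)]
    · refine (H.F_step (H.base_leg ha)).trans ?_
      rw [ha', ← Int.cast_neg]
      exact (H.F_step H.base_m1).trans (H.F_alpha hb hb')
    · refine (H.F_step (H.base_leg hb)).trans ?_
      rw [hb', ← Int.cast_neg]
      refine (H.F_step H.base_ma).trans ?_
      have := H.base_exit ha
      rw [ha'] at this
      exact H.F_step this
    · intro d h1 h2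
      by_cases h3 : d ∈ legs s μ T Δ C
      · refine hl d h3 (fun h4 => ?_) (fun h4 => ?_) (fun h4 => ?_)
        · exact (L_both H.par H.trip h3.1 h4).2 hμ
        · exact h1 (H.leg_inj h3 ha (by rw [h4, ha']))
        · exact h2 (H.leg_inj h3 hb (by rw [h4, hb']))
      · exact hnl d h3
  · have hL : μ ∈ Lset s μ T := ⟨by omega, Or.inr (Or.inl (abs_of_pos (by omega)))⟩
    have hL' : -μ ∈ Lset s μ T :=
      ⟨by omega, Or.inr (Or.inl (by rw [abs_neg]; exact abs_of_pos (by omega)))⟩
    obtain ⟨a, ha, ha'⟩ := H.leg_ex hL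
    obtain ⟨b, hb, hb'⟩ := H.leg_ex hL'
    refine ⟨a, ha.2.1 ha', b, hb.2.2 hb', ?_, ?_, ?_⟩
    · refine (H.F_step (H.base_leg ha)).trans ?_
      have := H.base_exit hb
      rw [hb', Int.cast_neg] at this
      rw [ha']
      exact H.F_step this
    · refine (H.F_step (H.base_leg hb)).trans ?_
      have := H.base_exit ha
      rw [ha'] at this
      rw [hb', Int.cast_neg, neg_neg]
      exact H.F_step this
    · intro d h1 h2
      by_cases h3 : d ∈ legs s μ T Δ C
      · by_cases h4 : Δ d = 6 * s - 1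
        · -- through `w 1`
          refine (H.F_step (H.base_leg h3)).trans ?_
          rw [h4, ← Int.cast_neg]
          exact (H.F_step H.base_ma).trans ((H.F_step (H.base_1 hμ)).trans
            ((H.F_step H.base_m1).trans (H.F_alpha h3 h4)))
        · refine hl d h3 (fun h5 => ?_) (fun h5 => ?_) h4
          · have h6 := (L_both H.par H.trip h3.1 h5).1
            have h7 := abs_cases (Δ d)
            rcases (show Δ d = μ ∨ Δ d = -μ by clear hL hL' h5; omega) with h8 | h8
            · exact h1 (H.leg_inj h3 ha (by rw [h8, ha']))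
            · exact h2 (H.leg_inj h3 hb (by rw [h8, hb']))
          · have h6 := h3.1
            rw [h5] at h6
            exact hμ ((L_one H.par H.trip).1 h6)
      · exact hnl d h3

theorem chain {Γ : Type*} {ψ : Perm Γ} {E : Γ → Γ → Prop} (hr : ∀ x, E x x)
    (ht : ∀ x y z, E x y → E y z → E x z) {D : Set Γ} (hD : ∀ x ∈ D, ψ x ∈ D) {a : Γ} (ha : a ∈ D)
    (hE : ∀ x ∈ D, x ≠ a → E x (ψ x)) (n : ℕ) : (ψ ^ n) (ψ a) ∈ D ∧ E (ψ a) ((ψ ^ n) (ψ a)) := by
  induction n with
  | zero => exact ⟨hD a ha, hr _⟩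
  | succ n ih =>
    rw [pow_succ', Perm.mul_apply]
    refine ⟨hD _ ih.1, ?_⟩
    by_cases h : (ψ ^ n) (ψ a) = a
    · rw [h]
      exact hr _
    · exact ht _ _ _ ih.2 (hE _ ih.1 h)

theorem Hyp.oneCyc [NeZero (12 * s)] (H : Hyp s μ ψ Δ C T v) :
    OneCyc H.F {p : Sym (12 * s) | p ≠ .w 0} := by
  have hs := H.par.s1
  obtain ⟨a, ha, b, hb, h1, h2, h3⟩ := H.switch
  have hC : ∀ d ∈ C, H.F.SameCycle (.c (ψ a)) (.c d) := by
    intro d hd
    obtain ⟨n, hn⟩ := (H.cross.one _ ((H.cross.inv a).2 ha) d hd).exists_nat_pow_eq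
    have := chain (ψ := ψ) (E := fun x y => H.F.SameCycle (.c x) (.c y))
      (fun x => Perm.SameCycle.refl _ _) (fun x y z h h' => h.trans h') (D := C)
      (fun x hx => (H.cross.inv x).2 hx) ha
      (fun x hx hxa => h3 x hxa (fun h4 => hb (h4 ▸ hx))) n
    rw [hn] at this
    exact this.2
  have hC' : ∀ d ∉ C, H.F.SameCycle (.c (ψ b)) (.c d) := by
    intro d hd
    obtain ⟨n, hn⟩ := (H.cross.two _ (fun h => hb ((H.cross.inv b).1 h)) d hd).exists_nat_pow_eq
    have := chain (ψ := ψ) (E := fun x y => H.F.SameCycle (.c x) (.c y))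
      (fun x => Perm.SameCycle.refl _ _) (fun x y z h h' => h.trans h') (D := Cᶜ)
      (fun x hx h => hx ((H.cross.inv x).1 h)) (a := b) hb
      (fun x hx hxa => h3 x (fun h4 => hx (h4 ▸ ha)) hxa) n
    rw [hn] at this
    exact this.2
  have hall : ∀ d, H.F.SameCycle (.c (ψ a)) (.c d) := by
    intro d
    by_cases hd : d ∈ C
    · exact hC d hd
    · exact h2.symm.trans ((hC' b hb).symm.trans (hC' d hd))
  have hcc : ∀ p : Sym (12 * s), p ≠ .w 0 → ∃ d, H.F.SameCycle (.c d) p := by
    intro p hp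
    rcases p with u | d | t
    · obtain ⟨z, rfl, h4, h5⟩ := rep hs u
      have hz0 : z ≠ 0 := fun h => hp (by rw [h]; simp)
      obtain ⟨b', hb', hb''⟩ := H.leg_alpha
      have h6 := H.F_alpha hb' hb''
      by_cases h7 : z = 6 * s
      · exact ⟨_, by rw [h7]; exact h6.symm⟩
      have h8 : |z| ≤ 6 * s - 1 := by have := abs_cases z; omega
      rcases L_cover H.trip h8 hz0 with h9 | h9 | h9
      · obtain ⟨d, hd, hd'⟩ := H.leg_ex h9
        have := H.base_exit hd
        rw [hd'] at this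
        exact ⟨_, (H.F_step this).symm⟩
      · obtain ⟨d, hd, hd'⟩ := H.leg_ex h9
        have := H.base_leg hd
        rw [hd', Int.cast_neg, neg_neg] at this
        exact ⟨_, H.F_step this⟩
      · have h10 := abs_cases z
        rcases (show z = 1 ∨ z = -1 by omega) with h11 | h11
        · subst h11
          by_cases hμ : μ = 1
          · obtain ⟨d, hd, hd'⟩ := H.leg_ex ((L_one H.par H.trip).2 hμ)
            have := H.base_exit hd
            rw [hd'] at this
            exact ⟨_, (H.F_step this).symm⟩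
          · exact ⟨_, ((H.F_step (H.base_1 hμ)).trans ((H.F_step H.base_m1).trans h6)).symm⟩
        · subst h11
          exact ⟨_, ((H.F_step H.base_m1).trans h6).symm⟩
    · exact ⟨d, Perm.SameCycle.refl _ _⟩
    · exact ⟨v t, H.F_step (H.base_v t)⟩
  intro p hp q hq
  obtain ⟨d, hd⟩ := hcc p hp
  obtain ⟨d', hd'⟩ := hcc q hq
  exact hd.symm.trans ((hall d).symm.trans ((hall d').trans hd'))

/-- the face with the tripods -/
theorem Hyp.half [NeZero (12 * s)] [Fintype ι] (H : Hyp s μ ψ Δ C T v) :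
    ∃ P, HalfSys ψ (legs s μ T Δ C) v P := by
  classical
  have hs := H.par.s1
  have hTc : ∀ i j r r', ((T i r : ℤ) : ZMod (12 * s)) = ((T j r' : ℤ) : ZMod (12 * s)) →
      T i r = T j r' := by
    intro i j r r' h
    apply castinj _ h
    have h1 := H.trip.rng i r
    have h2 := H.trip.rng j r'
    have h3 := abs_cases (T i r)
    have h4 := abs_cases (T j r')
    have h5 := abs_cases (T j r' - T i r)
    omega
  have hT0 : ∀ i r, ((T i r : ℤ) : ZMod (12 * s)) ≠ 0 := fun i r =>
    castne (T_not H.trip i r).1 (by have := H.trip.rng i r; omega)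
  set U : ι → Fin 3 → Sym (12 * s) := fun i r => .w (-((T i r : ℤ) : ZMod (12 * s))) with hU
  obtain ⟨ρ, h1, h2, h3⟩ := many H.oneCyc U
    (by
      intro i j r r' h
      have h4 : -((T i r : ℤ) : ZMod (12 * s)) = -((T j r' : ℤ) : ZMod (12 * s)) := by
        simpa [hU] using h
      have h5 := hTc i j r r' (neg_injective h4)
      exact H.trip.inj i j r r' (by rw [h5]))
    (by
      intro i r h
      have h4 : -((T i r : ℤ) : ZMod (12 * s)) = 0 := by simpa [hU] using h
      exact hT0 i r (neg_eq_zero.1 h4))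
    Finset.univ
  have hfix : ∀ p, (∀ i r, p ≠ U i r) → (H.F * ρ) p = base ψ Δ (legs s μ T Δ C) v p := by
    intro p hp
    rw [Perm.mul_apply, h2 p (fun i _ r => hp i r), H.F_apply]
  have hend : ∀ i r, base ψ Δ (legs s μ T Δ C) v (U i r) = .w ((T i r : ℤ) : ZMod (12 * s)) := by
    intro i r
    have h4 := T_not H.trip i r
    have h5 := H.base_int (z := -T i r) (by omega) (by rw [abs_neg]; omega)
      (L_negT H.par H.trip i r)
    rw [neg_neg, tau_of (by omega) h4.2.1 h4.2.2.1, Int.cast_neg] at h5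
    exact h5
  have hdisp : ∀ d, ψ d - d = ((Δ d : ℤ) : ZMod (12 * s)) := by
    intro d
    rw [H.cross.step]
    ring
  refine ⟨H.F * ρ, ?_, ?_, ?_, ?_, ?_, ?_, ?_, ?_⟩
  · rw [hfix _ fun i r h => ?_, base_w0]
    have h4 : 0 = -((T i r : ℤ) : ZMod (12 * s)) := by simpa [hU] using h
    exact hT0 i r (neg_eq_zero.1 h4.symm)
  · exact fun a b ha hb => h3 a ha b hb
  · intro d hd
    rw [hfix _ fun i r h => by simp [hU] at h, H.base_leg hd, ← hdisp, neg_sub]
  · intro d hd hd'
    rw [hfix _ fun i r h => by simp [hU] at h, base_str hd hd']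
  · intro t
    rw [hfix _ fun i r h => by simp [hU] at h, H.base_v]
  · intro t
    rw [hfix _ fun i r h => by simp [hU] at h, base_x]
  · intro d hd
    rw [hdisp, hfix _ fun i r h => ?_, H.base_exit hd]
    have h4 : ((Δ d : ℤ) : ZMod (12 * s)) = ((-T i r : ℤ) : ZMod (12 * s)) := by
      rw [Int.cast_neg]
      simpa [hU] using h
    have h5 := H.leg_cast (by rw [abs_neg]; have := H.trip.rng i r; omega) h4
    apply L_negT H.par H.trip i r
    rw [← h5]
    exact hd.1
  · intro u hu0 hu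
    have hu' : ∀ d ∈ legs s μ T Δ C, ((Δ d : ℤ) : ZMod (12 * s)) ≠ u := fun d hd => by
      rw [← hdisp]
      exact hu d hd
    by_cases h4 : ∃ i r, u = -((T i r : ℤ) : ZMod (12 * s))
    · obtain ⟨i, r, rfl⟩ := h4
      obtain ⟨e, he, h5⟩ := h1 i (Finset.mem_univ i)
      have h6 : ∀ r, (H.F * ρ) (.w (-((T i r : ℤ) : ZMod (12 * s)))) =
          .w ((T i (r + e) : ℤ) : ZMod (12 * s)) := by
        intro r
        rw [Perm.mul_apply]
        have h7 := h5 r
        simp only [hU] at h7
        rw [h7, H.F_apply]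
        exact hend i (r + e)
      refine ⟨_, h6 r, ?_⟩
      rw [h6 (r + e)]
      have h7 := H.trip.sum i
      have h8 : T i (r + e + e) = -T i r - T i (r + e) := by
        fin_cases r <;> fin_cases e <;> simp at he h7 ⊢ <;> linarith
      rw [h8]
      push_cast
      rfl
    · push Not at h4
      have hfx : ∀ z : ℤ, (∀ i r, z ≠ -T i r) → |z| ≤ 6 * s → (H.F * ρ) (.w (z : ZMod (12 * s))) =
          base ψ Δ (legs s μ T Δ C) v (.w (z : ZMod (12 * s))) := by
        intro z hz hz'
        apply hfix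
        intro i r h
        have h5 : (z : ZMod (12 * s)) = ((-T i r : ℤ) : ZMod (12 * s)) := by
          rw [Int.cast_neg]
          simpa [hU] using h
        apply hz i r
        apply castinj _ h5
        have h6 := H.trip.rng i r
        have h7 := abs_cases z
        have h8 := abs_cases (T i r)
        have h9 := abs_cases (-T i r - z)
        omega
      have hTn := T_not H.trip
      have g1 : (H.F * ρ) (.w ((-1 : ℤ) : ZMod (12 * s))) = .w ((6 * s : ℤ) : ZMod (12 * s)) := by
        rw [hfx (-1) (fun i r h => by have := (hTn i r).2.1; omega) (by simp; omega), H.base_m1]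
      have g6 : (H.F * ρ) (.w ((6 * s : ℤ) : ZMod (12 * s))) =
          .w ((6 * s - 1 : ℤ) : ZMod (12 * s)) := by
        rw [hfx (6 * s) (fun i r h => by
          have h5 := H.trip.rng i r
          have h6 := abs_cases (T i r)
          omega) (by rw [abs_of_pos (by omega)]), H.base_6]
      have ga : (H.F * ρ) (.w ((-(6 * s - 1) : ℤ) : ZMod (12 * s))) =
          .w ((1 : ℤ) : ZMod (12 * s)) := by
        rw [hfx (-(6 * s - 1)) (fun i r h => by have := (hTn i r).2.2.1; omega)
          (by rw [abs_neg, abs_of_pos (by omega)]; omega), H.base_ma]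
      have h2s : ((12 * s : ℤ) : ZMod (12 * s)) = 0 := by
        have := ZMod.natCast_self (12 * s)
        push_cast at this ⊢
        exact this
      obtain ⟨z, rfl, h5, h6⟩ := rep hs u
      have hz0 : z ≠ 0 := fun h => hu0 (by rw [h]; simp)
      have hzL : z ∉ Lset s μ T := by
        intro h
        obtain ⟨d, hd, hd'⟩ := H.leg_ex h
        exact hu' d hd (by rw [hd'])
      have hz4 : ∀ i r, z ≠ -T i r := fun i r h => h4 i r (by rw [h, Int.cast_neg])
      have hsp : z = 6 * s ∨ z = -1 ∨ z = -(6 * s - 1) := by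
        by_cases c1 : z = 6 * s
        · exact Or.inl c1
        have c2 := abs_cases z
        by_cases c3 : |z| = 6 * s - 1
        · have : z ≠ 6 * s - 1 := fun h => hzL (by rw [h]; exact L_alpha H.par)
          omega
        by_cases c4 : |z| = μ
        · by_contra c5
          exact hzL ⟨by omega, Or.inr (Or.inl c4)⟩
        obtain ⟨i, r, c5⟩ := H.trip.cov |z| (by omega) (by omega) c4
        have c6 := abs_cases (T i r)
        have c7 := hz4 i r
        have c8 : T i r = z := by omega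
        by_contra c9
        exact hzL ⟨by omega, Or.inr (Or.inr ⟨i, r, c8⟩)⟩
      rcases hsp with rfl | rfl | rfl
      · refine ⟨_, g6, ?_⟩
        rw [← Int.cast_neg, ga]
        congr 1
        push_cast
        ring
      · refine ⟨_, g1, ?_⟩
        rw [neg_h, g6]
        congr 1
        push_cast at h2s ⊢
        linear_combination h2s
      · refine ⟨_, ga, ?_⟩
        rw [← Int.cast_neg, g1]
        congr 1
        push_cast at h2s ⊢
        linear_combination h2s

end Pool.Agent.J4.H47.KM
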