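import Mathlib

/-!
# Tripods can be attached to a face without splitting it

If all points of `A` lie on one cycle of a permutation `f` and `T 0, T 1, T 2` are three points of `A`,
then one of the two 3-cycles on these points, composed with `f`, has all points of `A` on one cycle.
-/

set_option autoImplicit false

namespace Pool.Agent.J4.H47.KM

open Equiv

variable {α : Type*}

/-- all points of `A` lie on one cycle of `f` -/
def OneCyc (f : Perm α) (A : Set α) : Prop := ∀ x ∈ A, ∀ y ∈ A, f.SameCycle x y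

theorem seg {f g : Perm α} {a : α} {p q : ℕ} (hpq : p ≤ q)
    (h : ∀ t, p ≤ t → t < q → g ((f ^ t) a) = (f ^ (t + 1)) a) :
    g.SameCycle ((f ^ p) a) ((f ^ q) a) := by
  induction q, hpq using Nat.le_induction with
  | base => exact Perm.SameCycle.refl _ _
  | succ q hq ih =>
    have h1 := ih fun t h1 h2 => h t h1 (by omega)
    rw [← h q hq (by omega)]
    exact Perm.sameCycle_apply_right.2 h1

/-- the case in which `b` comes before `c` -/
theorem three_aux {f : Perm α} {A : Set α} (hA : OneCyc f A) [Finite α] {a b c : α} (ha : a ∈ A)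
    {n i j : ℕ} (hn : (f ^ n) a = a) (hinj : ∀ s t, s < n → t < n → (f ^ s) a = (f ^ t) a → s = t)
    (hi : 0 < i) (hij : i < j) (hjn : j < n) (hb : (f ^ i) a = b) (hc : (f ^ j) a = c) {ρ : Perm α}
    (hρ : ∀ x, x ≠ a → x ≠ b → x ≠ c → ρ x = x) (h1 : ρ a = b) (h2 : ρ b = c) (h3 : ρ c = a) :
    OneCyc (f * ρ) A := by
  set g := f * ρ with hg
  have hne : ∀ t, 0 < t → t < n → t ≠ i → t ≠ j → g ((f ^ t) a) = (f ^ (t + 1)) a := by
    intro t h0 h4 h5 h6
    rw [hg, Perm.mul_apply, hρ, pow_succ', Perm.mul_apply]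
    · intro h
      have := hinj t 0 h4 (by omega) (by simpa using h)
      omega
    · rw [← hb]
      intro h
      exact h5 (hinj t i h4 (by omega) h)
    · rw [← hc]
      intro h
      exact h6 (hinj t j h4 hjn h)
  have s1 : ∀ t, 1 ≤ t → t ≤ i → g.SameCycle ((f ^ 1) a) ((f ^ t) a) := fun t h4 h5 =>
    seg h4 fun u h6 h7 => hne u (by omega) (by omega) (by omega) (by omega)
  have s2 : ∀ t, i + 1 ≤ t → t ≤ j → g.SameCycle ((f ^ (i + 1)) a) ((f ^ t) a) := fun t h4 h5 =>
    seg h4 fun u h6 h7 => hne u (by omega) (by omega) (by omega) (by omega)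
  have s3 : ∀ t, j + 1 ≤ t → t ≤ n → g.SameCycle ((f ^ (j + 1)) a) ((f ^ t) a) := fun t h4 h5 =>
    seg h4 fun u h6 h7 => hne u (by omega) (by omega) (by omega) (by omega)
  have l1 : g.SameCycle a ((f ^ (i + 1)) a) := by
    have : g a = (f ^ (i + 1)) a := by
      rw [hg, Perm.mul_apply, h1, pow_succ', Perm.mul_apply, hb]
    rw [← this]
    exact Perm.sameCycle_apply_right.2 (Perm.SameCycle.refl _ _)
  have l2 : g.SameCycle b ((f ^ (j + 1)) a) := by
    have : g b = (f ^ (j + 1)) a := by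
      rw [hg, Perm.mul_apply, h2, pow_succ', Perm.mul_apply, hc]
    rw [← this]
    exact Perm.sameCycle_apply_right.2 (Perm.SameCycle.refl _ _)
  have l3 : g.SameCycle c ((f ^ 1) a) := by
    have : g c = (f ^ 1) a := by
      rw [hg, Perm.mul_apply, h3, pow_one]
    rw [← this]
    exact Perm.sameCycle_apply_right.2 (Perm.SameCycle.refl _ _)
  -- everything is related to `a`
  have e1 : g.SameCycle a c := l1.trans (by rw [← hc]; exact s2 j (by omega) le_rfl)
  have e2 : g.SameCycle a ((f ^ 1) a) := e1.trans l3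
  have e3 : g.SameCycle a b := e2.trans (by rw [← hb]; exact s1 i (by omega) le_rfl)
  have e4 : g.SameCycle a ((f ^ (j + 1)) a) := e3.trans l2
  have key : ∀ t, 1 ≤ t → t ≤ n → g.SameCycle a ((f ^ t) a) := by
    intro t h4 h5
    rcases Nat.lt_or_ge i t with h6 | h6
    · rcases Nat.lt_or_ge j t with h7 | h7
      · exact e4.trans (s3 t (by omega) h5)
      · exact l1.trans (s2 t (by omega) h7)
    · exact e2.trans (s1 t h4 h6)
  have all : ∀ x ∈ A, g.SameCycle a x := by
    intro x hx
    obtain ⟨m, hm⟩ := (hA a ha x hx).exists_nat_pow_eq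
    have hn0 : 0 < n := by omega
    have h4 : ∀ k, (f ^ (n * k)) a = a := by
      intro k
      induction k with
      | zero => simp
      | succ k ih => rw [Nat.mul_succ, pow_add, Perm.mul_apply, hn, ih]
    have h5 : (f ^ (m % n)) a = x := by
      rw [← hm]
      conv_rhs => rw [← Nat.mod_add_div m n, pow_add, Perm.mul_apply, h4]
    rcases Nat.eq_zero_or_pos (m % n) with h6 | h6
    · rw [h6] at h5
      rw [← h5]
      exact Perm.SameCycle.refl _ _
    · rw [← h5]
      exact key _ h6 (Nat.mod_lt _ hn0).le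
  exact fun x hx y hy => (all x hx).symm.trans (all y hy)

/-- One of the two 3-cycles on three points of the cycle can be inserted. -/
theorem three [Finite α] {f : Perm α} {A : Set α} (hA : OneCyc f A) (T : Fin 3 → α)
    (hT : Function.Injective T) (hTA : ∀ r, T r ∈ A) :
    ∃ ρ : Perm α, ∃ e : Fin 3, e ≠ 0 ∧ (∀ r, ρ (T r) = T (r + e)) ∧ (∀ x, (∀ r, x ≠ T r) → ρ x = x) ∧
      OneCyc (f * ρ) A := by
  classical
  set a := T 0 with ha
  set b := T 1 with hb
  set c := T 2 with hc
  have hab : a ≠ b := fun h => by simpa using hT h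
  have hac : a ≠ c := fun h => by simpa using hT h
  have hbc : b ≠ c := fun h => by simpa using hT h
  set n := Function.minimalPeriod f a with hn
  have hper : a ∈ Function.periodicPts f := Function.Injective.mem_periodicPts f.injective a
  have hn0 : 0 < n := Function.minimalPeriod_pos_of_mem_periodicPts hper
  have hna : (f ^ n) a = a := by
    rw [← Perm.iterate_eq_pow]
    exact Function.iterate_minimalPeriod
  have hinj : ∀ s t, s < n → t < n → (f ^ s) a = (f ^ t) a → s = t := by
    intro s t h1 h2 h3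
    rw [← Perm.iterate_eq_pow, ← Perm.iterate_eq_pow] at h3
    exact Function.iterate_injOn_Iio_minimalPeriod h1 h2 h3
  have hex : ∀ x ∈ A, ∃ i, i < n ∧ (f ^ i) a = x := by
    intro x hx
    obtain ⟨m, hm⟩ := (hA a (hTA 0) x hx).exists_nat_pow_eq
    refine ⟨m % n, Nat.mod_lt _ hn0, ?_⟩
    rw [← hm, ← Perm.iterate_eq_pow, ← Perm.iterate_eq_pow]
    exact Function.iterate_mod_minimalPeriod_eq
  obtain ⟨i, hin, hi⟩ := hex b (hTA 1)
  obtain ⟨j, hjn, hj⟩ := hex c (hTA 2)
  have hi0 : 0 < i := by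
    rcases Nat.eq_zero_or_pos i with h | h
    · subst h
      exact absurd (by simpa using hi) hab
    · exact h
  have hj0 : 0 < j := by
    rcases Nat.eq_zero_or_pos j with h | h
    · subst h
      exact absurd (by simpa using hj) hac
    · exact h
  have hne : i ≠ j := fun h => hbc (by rw [← hi, ← hj, h])
  -- the two 3-cycles
  have key : ∀ p q : α, p ≠ a → q ≠ a → p ≠ q → ∃ ρ : Perm α, ρ a = p ∧ ρ p = q ∧ ρ q = a ∧
      ∀ x, x ≠ a → x ≠ p → x ≠ q → ρ x = x := by
    intro p q h1 h2 h3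
    refine ⟨swap a p * swap p q, ?_, ?_, ?_, ?_⟩
    · rw [Perm.mul_apply, swap_apply_of_ne_of_ne h1.symm h2.symm, swap_apply_left]
    · rw [Perm.mul_apply, swap_apply_left, swap_apply_of_ne_of_ne h2 h3.symm]
    · rw [Perm.mul_apply, swap_apply_right, swap_apply_right]
    · intro x h4 h5 h6
      rw [Perm.mul_apply, swap_apply_of_ne_of_ne h5 h6, swap_apply_of_ne_of_ne h4 h5]
  rcases Nat.lt_or_gt_of_ne hne with h | h
  · obtain ⟨ρ, h1, h2, h3, h4⟩ := key b c hab.symm hac.symm hbc
    refine ⟨ρ, 1, by decide, ?_, ?_, three_aux hA (hTA 0) hna hinj hi0 h hjn hi hj h4 h1 h2 h3⟩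
    · intro r
      fin_cases r
      · exact h1
      · exact h2
      · exact h3
    · intro x hx
      exact h4 x (hx 0) (hx 1) (hx 2)
  · obtain ⟨ρ, h1, h2, h3, h4⟩ := key c b hac.symm hab.symm hbc.symm
    refine ⟨ρ, 2, by decide, ?_, ?_, three_aux hA (hTA 0) hna hinj hj0 h hin hj hi h4 h1 h2 h3⟩
    · intro r
      fin_cases r
      · exact h1
      · exact h3
      · exact h2
    · intro x hx
      exact h4 x (hx 0) (hx 2) (hx 1)

/-- Many tripods. -/
theorem many [Finite α] {ι : Type*} {f : Perm α} {A : Set α} (hA : OneCyc f A) (T : ι → Fin 3 → α)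
    (hT : ∀ i j r r', T i r = T j r' → i = j ∧ r = r') (hTA : ∀ i r, T i r ∈ A) (s : Finset ι) :
    ∃ ρ : Perm α, (∀ i ∈ s, ∃ e : Fin 3, e ≠ 0 ∧ ∀ r, ρ (T i r) = T i (r + e)) ∧
      (∀ x, (∀ i ∈ s, ∀ r, x ≠ T i r) → ρ x = x) ∧ OneCyc (f * ρ) A := by
  classical
  induction s using Finset.induction_on with
  | empty =>
    refine ⟨1, by simp, by simp, ?_⟩
    rw [mul_one]
    exact hA
  | insert i s hi ih =>
    obtain ⟨ρ, h1, h2, h3⟩ := ih
    obtain ⟨ρ', e, he, h4, h5, h6⟩ := three h3 (T i) (fun r r' h => (hT _ _ _ _ h).2) (hTA i)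
    refine ⟨ρ * ρ', ?_, ?_, by rwa [← mul_assoc]⟩
    · intro j hj
      rcases Finset.mem_insert.1 hj with rfl | hj
      · refine ⟨e, he, fun r => ?_⟩
        rw [Perm.mul_apply, h4]
        exact h2 _ fun k hk r' h => hi ((hT _ _ _ _ h).1 ▸ hk)
      · obtain ⟨e', he', h7⟩ := h1 j hj
        refine ⟨e', he', fun r => ?_⟩
        rw [Perm.mul_apply, h5, h7]
        intro r' h
        exact hi ((hT _ _ _ _ h).1 ▸ hj)
    · intro x hx
      rw [Perm.mul_apply, h5 x fun r => hx i (Finset.mem_insert_self _ _) r,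
        h2 x fun j hj r => hx j (Finset.mem_insert_of_mem hj) r]

end Pool.Agent.J4.H47.KM
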